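import Mathlib

/-!
# Sets of linear characters which are stable under the Galois group
-/

set_option autoImplicit false
set_option linter.unusedSectionVars false

namespace Pool.Agent.Helper503_BS

lemma card_divisors_sq (n : ℕ) : (n.divisors.card) ^ 2 ≤ 4 * n := by
  classical
  have h1 : n.divisors ⊆ (Finset.Icc 1 n.sqrt) ∪ (Finset.Icc 1 n.sqrt).image (fun d => n / d) := by
    intro d hd
    obtain ⟨hdn, hn⟩ := Nat.mem_divisors.mp hd
    have hd0 : 0 < d := Nat.pos_of_dvd_of_pos hdn (Nat.pos_of_ne_zero hn)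
    rw [Finset.mem_union]
    by_cases h : d ≤ n.sqrt
    · left
      rw [Finset.mem_Icc]
      exact ⟨hd0, h⟩
    · right
      push Not at h
      rw [Finset.mem_image]
      refine ⟨n / d, ?_, Nat.div_div_self hdn hn⟩
      rw [Finset.mem_Icc]
      constructor
      · exact Nat.div_pos (Nat.le_of_dvd (Nat.pos_of_ne_zero hn) hdn) hd0
      · rw [← Nat.lt_succ_iff, Nat.div_lt_iff_lt_mul hd0]
        have h2 := Nat.lt_succ_sqrt n
        have h3 : n.sqrt.succ ≤ d := h
        calc n < n.sqrt.succ * n.sqrt.succ := h2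
          _ ≤ n.sqrt.succ * d := Nat.mul_le_mul_left _ h3
  have h2 : n.divisors.card ≤ 2 * n.sqrt := by
    refine (Finset.card_le_card h1).trans ((Finset.card_union_le _ _).trans ?_)
    have h3 := Finset.card_image_le (s := Finset.Icc 1 n.sqrt) (f := fun d => n / d)
    rw [Nat.card_Icc, Nat.add_sub_cancel] at h3 ⊢
    omega
  have h3 := Nat.sqrt_le' n
  calc (n.divisors.card) ^ 2 ≤ (2 * n.sqrt) ^ 2 := Nat.pow_le_pow_left h2 2
    _ = 4 * n.sqrt ^ 2 := by ring
    _ ≤ 4 * n := Nat.mul_le_mul_left 4 h3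

lemma le_four_pow_totient (n : ℕ) (hn : 0 < n) : n ≤ 4 ^ n.totient := by
  have hφ : 0 < n.totient := Nat.totient_pos.mpr hn
  have h1 : n ≤ n.divisors.card * n.totient := by
    calc n = ∑ d ∈ n.divisors, d.totient := (Nat.sum_totient n).symm
      _ ≤ ∑ _d ∈ n.divisors, n.totient := by
          refine Finset.sum_le_sum fun d hd => ?_
          exact Nat.le_of_dvd hφ (Nat.totient_dvd_of_dvd (Nat.dvd_of_mem_divisors hd))
      _ = n.divisors.card * n.totient := by rw [Finset.sum_const, smul_eq_mul]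
  have h2 := card_divisors_sq n
  have h3 : n ≤ 4 * n.totient ^ 2 := by
    have h4 : n * n ≤ n * (4 * n.totient ^ 2) := by
      calc n * n ≤ (n.divisors.card * n.totient) * (n.divisors.card * n.totient) :=
            Nat.mul_le_mul h1 h1
        _ = n.divisors.card ^ 2 * n.totient ^ 2 := by ring
        _ ≤ (4 * n) * n.totient ^ 2 := Nat.mul_le_mul_right _ h2
        _ = n * (4 * n.totient ^ 2) := by ring
    exact Nat.le_of_mul_le_mul_left h4 hn
  obtain ⟨m, hm⟩ : ∃ m, n.totient = m + 1 := ⟨n.totient - 1, by omega⟩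
  have h4 : m + 1 ≤ 2 ^ m := Nat.lt_two_pow_self
  calc n ≤ 4 * n.totient ^ 2 := h3
    _ ≤ 4 * (2 ^ m) ^ 2 := by
        rw [hm]
        exact Nat.mul_le_mul_left 4 (Nat.pow_le_pow_left h4 2)
    _ = 4 ^ n.totient := by
        rw [hm, ← pow_mul, mul_comm m 2, pow_mul, pow_succ]
        norm_num
        ring

section

variable {A : Type} [Group A] [Finite A]

lemma finite_hom : Finite (A →* ℂˣ) := by
  classical
  have : Fintype A := Fintype.ofFinite A
  have hn : 0 < Nat.card A := Nat.card_pos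
  have : NeZero (Nat.card A) := ⟨hn.ne'⟩
  have hf : Finite (rootsOfUnity (Nat.card A) ℂ) := inferInstance
  let f : (A →* ℂˣ) → (A → rootsOfUnity (Nat.card A) ℂ) := fun μ a => ⟨μ a, by
    rw [mem_rootsOfUnity, ← map_pow, pow_card_eq_one', map_one]⟩
  refine Finite.of_injective f fun μ ν h => ?_
  ext a
  have h1 := congrArg (fun x : rootsOfUnity (Nat.card A) ℂ => ((x : ℂˣ) : ℂ)) (congrFun h a)
  exact h1

lemma orderOf_hom_pos (μ : A →* ℂˣ) : 0 < orderOf μ := by
  have := finite_hom (A := A)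
  exact orderOf_pos μ

lemma index_ker_le (μ : A →* ℂˣ) : μ.ker.index ≤ orderOf μ := by
  classical
  have hn := orderOf_hom_pos μ
  have : NeZero (orderOf μ) := ⟨hn.ne'⟩
  rw [Subgroup.index_ker]
  have h1 : μ.range ≤ rootsOfUnity (orderOf μ) ℂ := by
    rintro _ ⟨a, rfl⟩
    rw [mem_rootsOfUnity]
    exact DFunLike.congr_fun (pow_orderOf_eq_one μ) a
  have hf : Finite (rootsOfUnity (orderOf μ) ℂ) := inferInstance
  have h2 : Nat.card μ.range ≤ Nat.card (rootsOfUnity (orderOf μ) ℂ) :=
    Nat.card_le_card_of_injective _ (Subgroup.inclusion_injective h1)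
  exact h2.trans (card_rootsOfUnity ℂ (orderOf μ))

lemma pow_aux {C : Type} [Group C] (ν : C) (k k' : ℕ) (h : k * k' ≡ 1 [MOD orderOf ν]) :
    (ν ^ k) ^ k' = ν := by
  rw [← pow_mul]
  have h1 : ν ^ (k * k') = ν ^ 1 := pow_eq_pow_iff_modEq.mpr h
  rw [h1, pow_one]

/-- closed under conjugation by the Galois group -/
def Stab (Ω : Finset (A →* ℂˣ)) : Prop :=
  ∀ μ ∈ Ω, ∀ k : ℕ, k.Coprime (orderOf μ) → μ ^ k ∈ Ω

/-- the intersection of the kernels -/
def kers (Ω : Finset (A →* ℂˣ)) : Subgroup A where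
  carrier := {a | ∀ μ ∈ Ω, μ a = 1}
  one_mem' := fun μ _ => map_one μ
  mul_mem' := fun {a b} ha hb μ hμ => by rw [map_mul, ha μ hμ, hb μ hμ, one_mul]
  inv_mem' := fun {a} ha μ hμ => by rw [map_inv, ha μ hμ, inv_one]

/-- the conjugates -/
noncomputable def conjs [DecidableEq (A →* ℂˣ)] (μ : A →* ℂˣ) : Finset (A →* ℂˣ) :=
  ((Finset.range (orderOf μ)).filter (fun k => (orderOf μ).Coprime k)).image (fun k => μ ^ k)

lemma card_conjs [DecidableEq (A →* ℂˣ)] (μ : A →* ℂˣ) :
    (conjs μ).card = (orderOf μ).totient := by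
  rw [conjs, Finset.card_image_of_injOn, Nat.totient_eq_card_coprime]
  intro i hi j hj h
  rw [Finset.mem_coe, Finset.mem_filter, Finset.mem_range] at hi hj
  exact pow_injOn_Iio_orderOf hi.1 hj.1 h

lemma mem_conjs [DecidableEq (A →* ℂˣ)] (μ : A →* ℂˣ) (k : ℕ) (hk : k.Coprime (orderOf μ)) :
    μ ^ k ∈ conjs μ := by
  have hn := orderOf_hom_pos μ
  rw [conjs, Finset.mem_image]
  refine ⟨k % orderOf μ, ?_, pow_mod_orderOf μ k⟩
  rw [Finset.mem_filter, Finset.mem_range]
  refine ⟨Nat.mod_lt _ hn, ?_⟩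
  rw [Nat.coprime_comm, Nat.Coprime, ← Nat.gcd_rec, Nat.gcd_comm]
  exact hk

lemma exists_of_conjs [DecidableEq (A →* ℂˣ)] {μ ν : A →* ℂˣ} (h : ν ∈ conjs μ) :
    ∃ k : ℕ, k.Coprime (orderOf μ) ∧ ν = μ ^ k := by
  rw [conjs, Finset.mem_image] at h
  obtain ⟨k, hk, rfl⟩ := h
  rw [Finset.mem_filter] at hk
  exact ⟨k, Nat.coprime_comm.mp hk.2, rfl⟩

/-- the order of the group is bounded by the number of characters -/
theorem index_kers_le (Ω : Finset (A →* ℂˣ)) (hΩ : Stab Ω) : (kers Ω).index ≤ 4 ^ Ω.card := by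
  classical
  induction hN : Ω.card using Nat.strong_induction_on generalizing Ω with
  | _ N ih =>
    rcases Ω.eq_empty_or_nonempty with rfl | ⟨μ, hμ⟩
    · have h1 : kers (∅ : Finset (A →* ℂˣ)) = ⊤ := by
        rw [eq_top_iff]
        intro a _ μ hμ
        exact absurd hμ (Finset.notMem_empty _)
      rw [h1, Subgroup.index_top]
      exact Nat.one_le_pow _ _ (by norm_num)
    · have hsub : conjs μ ⊆ Ω := by
        intro ν hν
        obtain ⟨k, hk, rfl⟩ := exists_of_conjs hν
        exact hΩ μ hμ k hk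
      have hself : μ ∈ conjs μ := by
        have h0 := mem_conjs μ 1 (Nat.coprime_one_left _)
        have h1 : μ ^ 1 = μ := pow_one μ
        rwa [h1] at h0
      have hstab : Stab (Ω \ conjs μ) := by
        intro ν hν k hk
        rw [Finset.mem_sdiff] at hν ⊢
        refine ⟨hΩ ν hν.1 k hk, fun hcon => hν.2 ?_⟩
        obtain ⟨j, hj, hjk⟩ := exists_of_conjs hcon
        have ho : orderOf (ν ^ k) = orderOf ν := Nat.Coprime.orderOf_pow (Nat.coprime_comm.mp hk)
        have ho' : orderOf (μ ^ j) = orderOf μ := Nat.Coprime.orderOf_pow (Nat.coprime_comm.mp hj)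
        have ho2 : orderOf ν = orderOf μ := by rw [← ho, hjk, ho']
        -- an inverse of `k`
        obtain ⟨k', hk'⟩ : ∃ k' : ℕ, k * k' ≡ 1 [MOD orderOf ν] := by
          by_cases h1 : orderOf ν = 1
          · refine ⟨0, ?_⟩
            rw [h1]
            exact Nat.modEq_one
          · have h2 : 1 < orderOf ν := by
              have := orderOf_hom_pos ν
              omega
            obtain ⟨m, hm⟩ := Nat.exists_mul_mod_eq_one_of_coprime hk h2
            refine ⟨m, ?_⟩
            rw [Nat.ModEq, hm.2, Nat.mod_eq_of_lt h2]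
        have h3 : ν = μ ^ (j * k') := by
          have h6 : μ ^ (j * k') = (μ ^ j) ^ k' := pow_mul μ j k'
          have h4 : (ν ^ k) ^ k' = ν := pow_aux ν k k' hk'
          rw [h6, ← hjk, h4]
        rw [h3]
        refine mem_conjs μ _ ?_
        refine Nat.Coprime.mul_left hj ?_
        rw [← ho2]
        have h5 : (k * k').Coprime (orderOf ν) := by
          rw [Nat.Coprime, hk'.gcd_eq]
          exact Nat.gcd_one_left _
        exact Nat.Coprime.coprime_mul_left h5
      have hc := Finset.card_sdiff_add_card_eq_card hsub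
      have hpos : 0 < (conjs μ).card := Finset.card_pos.mpr ⟨μ, hself⟩
      have h1 := ih (Ω \ conjs μ).card (by omega) _ hstab rfl
      have h2 : μ.ker ⊓ kers (Ω \ conjs μ) ≤ kers Ω := by
        rintro a ⟨ha, hb⟩ ν hν
        by_cases h3 : ν ∈ conjs μ
        · obtain ⟨k, -, rfl⟩ := exists_of_conjs h3
          have h4 : μ a = 1 := ha
          rw [MonoidHom.pow_apply, h4, one_pow]
        · exact hb ν (Finset.mem_sdiff.mpr ⟨hν, h3⟩)
      calc (kers Ω).index ≤ (μ.ker ⊓ kers (Ω \ conjs μ)).index :=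
            Subgroup.index_antitone h2
        _ ≤ μ.ker.index * (kers (Ω \ conjs μ)).index := Subgroup.index_inf_le
        _ ≤ 4 ^ (conjs μ).card * 4 ^ (Ω \ conjs μ).card := by
            refine Nat.mul_le_mul ?_ h1
            rw [card_conjs]
            exact (index_ker_le μ).trans (le_four_pow_totient _ (orderOf_hom_pos μ))
        _ = 4 ^ N := by
            rw [← pow_add, add_comm, hc, hN]

end

end Pool.Agent.Helper503_BS
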