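import Mathlib
import Pool.Agent.Helper503_AD.JorFin
import Pool.Agent.Helper503_BS.Gal

/-!
# Heilbronn functions whose linear constituents are stable under the Galois group
-/

set_option autoImplicit false
set_option linter.unusedSectionVars false

namespace Pool.Agent.Helper503_BS

open Pool.Agent.H302R2 Pool.Agent.H541R3.ART Pool.Agent.H302R5 Pool.Agent.H302R6
  Pool.Agent.W446.AS Pool.Agent.R362 Pool.Agent.R683.Ord Pool.Agent.Helper503_AD

lemma num_base37 {m : ℕ} (hm : m ≠ 0) : 248832 * m ^ 34 ≤ 37 ^ (5 * m) := by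
  rcases Nat.lt_or_ge m 2 with h | h
  · have : m = 1 := by omega
    subst this
    norm_num
  · induction m, h using Nat.le_induction with
    | base => norm_num
    | succ n hn ih =>
      have h1 := ih (by omega)
      have h2 : 2 ^ 34 * (n + 1) ^ 34 ≤ 3 ^ 34 * n ^ 34 := by
        rw [← mul_pow, ← mul_pow]
        exact Nat.pow_le_pow_left (by omega) 34
      have h3 : (3 : ℕ) ^ 34 ≤ 37 ^ 5 * 2 ^ 34 := by norm_num
      have h4 : (n + 1) ^ 34 ≤ 37 ^ 5 * n ^ 34 := by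
        have hpos : 0 < 2 ^ 34 := by norm_num
        refine Nat.le_of_mul_le_mul_left ?_ hpos
        calc 2 ^ 34 * (n + 1) ^ 34 ≤ 3 ^ 34 * n ^ 34 := h2
          _ ≤ (37 ^ 5 * 2 ^ 34) * n ^ 34 := Nat.mul_le_mul_right _ h3
          _ = 2 ^ 34 * (37 ^ 5 * n ^ 34) := by ring
      calc 248832 * (n + 1) ^ 34 ≤ 248832 * (37 ^ 5 * n ^ 34) := Nat.mul_le_mul_left _ h4
        _ = 248832 * n ^ 34 * 37 ^ 5 := by ring
        _ ≤ 37 ^ (5 * n) * 37 ^ 5 := Nat.mul_le_mul_right _ h1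
        _ = 37 ^ (5 * (n + 1)) := by rw [← pow_add]; congr 1

lemma num37 {ι : Type*} (Ω : Finset ι) (m : ι → ℕ) (hm0 : ∀ μ ∈ Ω, m μ ≠ 0)
    {r : ℕ} (hsum : ∑ μ ∈ Ω, m μ = r) :
    (4 ^ Ω.card) ^ 5 * (3 ^ (5 * (Ω.card - 1)) * ∏ μ ∈ Ω, m μ ^ 34) ≤ (37 ^ r) ^ 5 := by
  calc (4 ^ Ω.card) ^ 5 * (3 ^ (5 * (Ω.card - 1)) * ∏ μ ∈ Ω, m μ ^ 34)
      ≤ (4 ^ Ω.card) ^ 5 * (3 ^ (5 * Ω.card) * ∏ μ ∈ Ω, m μ ^ 34) := by
        refine Nat.mul_le_mul_left _ (Nat.mul_le_mul_right _ ?_)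
        exact Nat.pow_le_pow_right (by norm_num) (by omega)
    _ = 248832 ^ Ω.card * ∏ μ ∈ Ω, m μ ^ 34 := by
        rw [← mul_assoc, ← pow_mul, mul_comm Ω.card 5, pow_mul, pow_mul, ← mul_pow]
        norm_num
    _ = ∏ μ ∈ Ω, (248832 * m μ ^ 34) := by
        rw [Finset.prod_mul_distrib, Finset.prod_const]
    _ ≤ ∏ μ ∈ Ω, 37 ^ (5 * m μ) := Finset.prod_le_prod' fun μ hμ => num_base37 (hm0 μ hμ)
    _ = (37 ^ r) ^ 5 := by
        rw [Finset.prod_pow_eq_pow_sum, ← Finset.mul_sum, hsum, ← pow_mul, mul_comm]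

variable {G : Type} [Group G] [Finite G]

/-- the faithful case, with the properties of the set of weights -/
theorem jorΩ {θ : G → ℂ} (hθ : IsHeilbronn θ) (hV : Virt θ) {r : ℕ} (hr : θ 1 = r) (hr0 : r ≠ 0)
    (hfaith : ∀ g : G, (∀ (n : ℕ) (ρ : Representation ℂ G (Fin n → ℂ)), Irred ρ →
      pr θ ρ.character ≠ 0 → ρ g = 1) → g = 1)
    (S : Subgroup G) (hSn : S.Normal) (hS : Group.IsSolvable S) :
    ∃ A : Subgroup G, A.Normal ∧ A ≤ S ∧
      ∃ (Ω : Finset (A →* ℂˣ)) (m : (A →* ℂˣ) → ℕ), (∀ μ ∈ Ω, m μ ≠ 0) ∧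
        (∀ μ, μ ∈ Ω ↔ lam A μ θ 1 ≠ 0) ∧ (∀ a : A, (∀ μ ∈ Ω, μ a = 1) → a = 1) ∧
        ∑ μ ∈ Ω, m μ = r ∧
        A.relIndex S ^ 5 ≤ 3 ^ (5 * (Ω.card - 1)) * ∏ μ ∈ Ω, m μ ^ 34 := by
  classical
  obtain ⟨A, hA⟩ := (Set.toFinite {A : Subgroup G | A.Normal ∧ A ≤ S ∧
    ∀ a ∈ A, ∀ b ∈ A, a * b = b * a}).exists_maximal ⟨⊥, inferInstance, bot_le, by
      intro a ha b hb
      rw [Subgroup.mem_bot] at ha hb
      rw [ha, hb]⟩
  obtain ⟨hAn, hAS, hAc⟩ := hA.prop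
  have hAc' : ∀ a b : A, a * b = b * a := fun a b => Subtype.ext (hAc a a.2 b b.2)
  obtain ⟨Ω, m, hm, hΩ, hsum⟩ := exists_omega hθ A hAc' hr
  have hΩ' : ∀ μ, μ ∈ Ω ↔ lam A μ θ 1 ≠ 0 := by
    intro μ
    rw [hΩ, hm]
    exact_mod_cast Iff.rfl
  have hsep : ∀ a : A, (∀ μ ∈ Ω, μ a = 1) → a = 1 := by
    intro a ha
    exact sep_of_faith hθ hfaith A hAc' a fun μ hμ => ha μ ((hΩ' μ).mpr hμ)
  have hne : Ω.Nonempty := by
    rw [Finset.nonempty_iff_ne_empty]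
    intro h
    rw [h, Finset.sum_empty] at hsum
    exact hr0 hsum.symm
  refine ⟨A, hAn, hAS, Ω, m, fun μ hμ => (hΩ μ).mp hμ, hΩ', hsep, hsum, ?_⟩
  have h1 := perm_le hθ.conj A Ω hne hΩ' hsep S hS
  have h2 := cent_bound hθ hV A S hAn hSn hS hAS hAc (fun A' h1 h2 h3 h4 => hA.le_of_ge ⟨h1, h2, h3⟩ h4)
    Ω m hm (fun μ hμ => (hΩ μ).mp hμ) hsep
  have hAC : A ≤ S ⊓ Subgroup.centralizer (A : Set G) := by
    refine le_inf hAS ?_
    intro a ha
    rw [Subgroup.mem_centralizer_iff]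
    intro b hb
    exact hAc b hb a ha
  have h3 : A.relIndex (S ⊓ Subgroup.centralizer (A : Set G)) *
      (S ⊓ Subgroup.centralizer (A : Set G)).relIndex S = A.relIndex S :=
    Subgroup.relIndex_mul_relIndex _ _ _ hAC inf_le_left
  have h4 : (S ⊓ Subgroup.centralizer (A : Set G)).relIndex S
      = (Subgroup.centralizer (A : Set G)).relIndex S := by
    rw [inf_comm, Subgroup.inf_relIndex_right]
  rw [← h3, h4, mul_pow, mul_comm]
  refine Nat.mul_le_mul ?_ h2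
  rw [mul_comm 5, pow_mul]
  exact Nat.pow_le_pow_left h1 5

/-- the pairing of `θ` with a linear character of a subgroup -/
noncomputable def pair (θ : G → ℂ) (B : Subgroup G) (μ : B →* ℂˣ) : ℂ :=
  ∑ᶠ b : B, θ b * (((μ b)⁻¹ : ℂˣ) : ℂ)

/-- the linear characters of the subgroups which occur in `θ` are stable under conjugation by the
Galois group -/
def GalStable (θ : G → ℂ) : Prop :=
  ∀ (B : Subgroup G) (μ : B →* ℂˣ) (k : ℕ), k.Coprime (orderOf μ) →
    pair θ B μ ≠ 0 → pair θ B (μ ^ k) ≠ 0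

lemma lam_ne_iff (θ : G → ℂ) (A : Subgroup G) (μ : A →* ℂˣ) :
    lam A μ θ 1 ≠ 0 ↔ pair θ A μ ≠ 0 := by
  have h : lam A μ θ 1 = (Nat.card A : ℂ)⁻¹ * pair θ A μ := by
    unfold lam pair
    simp only [one_mul]
  rw [h]
  have hc : (Nat.card A : ℂ)⁻¹ ≠ 0 := inv_ne_zero (by exact_mod_cast Nat.card_pos.ne')
  constructor
  · intro h1 h2
    exact h1 (by rw [h2, mul_zero])
  · intro h1
    exact mul_ne_zero hc h1

/-- the faithful case, the order of a solvable normal subgroup -/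
theorem card_le_of_faith {θ : G → ℂ} (hθ : IsHeilbronn θ) (hV : Virt θ) (hg : GalStable θ)
    {r : ℕ} (hr : θ 1 = r) (hr0 : r ≠ 0)
    (hfaith : ∀ g : G, (∀ (n : ℕ) (ρ : Representation ℂ G (Fin n → ℂ)), Irred ρ →
      pr θ ρ.character ≠ 0 → ρ g = 1) → g = 1)
    (S : Subgroup G) (hSn : S.Normal) (hS : Group.IsSolvable S) : Nat.card S ≤ 37 ^ r := by
  classical
  obtain ⟨A, hAn, hAS, Ω, m, hm0, hΩ, hsep, hsum, hbd⟩ := jorΩ hθ hV hr hr0 hfaith S hSn hS
  have hst : Stab Ω := by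
    intro μ hμ k hk
    rw [hΩ, lam_ne_iff] at hμ ⊢
    exact hg A μ k hk hμ
  have h1 := index_kers_le Ω hst
  have h2 : kers Ω = ⊥ := by
    rw [eq_bot_iff]
    intro a ha
    exact hsep a ha
  rw [h2, Subgroup.index_bot] at h1
  have h3 : Nat.card A * A.relIndex S = Nat.card S := by
    have h4 := Subgroup.relIndex_mul_relIndex (⊥ : Subgroup G) A S bot_le hAS
    rwa [Subgroup.relIndex_bot_left, Subgroup.relIndex_bot_left] at h4
  have h5 : Nat.card S ^ 5 ≤ (37 ^ r) ^ 5 := by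
    rw [← h3, mul_pow]
    refine le_trans ?_ (num37 Ω m hm0 hsum)
    exact Nat.mul_le_mul (Nat.pow_le_pow_left h1 5) hbd
  exact (Nat.pow_le_pow_iff_left (by norm_num)).mp h5

lemma GalStable.push {Q : Type} [Group Q] [Finite Q] [Fintype G] {π : G →* Q}
    (hπ : Function.Surjective π) {θ : G → ℂ} (hg : GalStable θ) : GalStable (push π θ) := by
  classical
  intro B μ k hk hne
  let φ : B.comap π →* B := (π.comp (B.comap π).subtype).codRestrict B (fun u => u.2)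
  have hφ : ∀ u, φ u = ⟨π u, u.2⟩ := fun u => rfl
  have hφs : Function.Surjective φ := by
    rintro ⟨b, hb⟩
    obtain ⟨g, rfl⟩ := hπ b
    exact ⟨⟨g, hb⟩, rfl⟩
  have key : ∀ ν : B →* ℂˣ, Pool.Agent.Helper503_BS.pair (Pool.Agent.H302R5.push π θ) B ν ≠ 0 ↔
      Pool.Agent.Helper503_BS.pair θ (B.comap π) (ν.comp φ) ≠ 0 := by
    intro ν
    have h1 : Pool.Agent.Helper503_BS.pair (Pool.Agent.H302R5.push π θ) B ν
        = (Nat.card π.ker : ℂ)⁻¹ * Pool.Agent.Helper503_BS.pair θ (B.comap π) (ν.comp φ) :=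
      sum_push π θ B ν
    have hc : (Nat.card π.ker : ℂ)⁻¹ ≠ 0 := inv_ne_zero (by exact_mod_cast Nat.card_pos.ne')
    rw [h1]
    exact ⟨fun h h2 => h (by rw [h2, mul_zero]), fun h => mul_ne_zero hc h⟩
  rw [key] at hne ⊢
  have h2 : (μ ^ k).comp φ = (μ.comp φ) ^ k := by
    ext u
    rfl
  have h3 : orderOf (μ.comp φ) ∣ orderOf μ := by
    rw [orderOf_dvd_iff_pow_eq_one]
    ext u
    have h4 : μ ^ orderOf μ = 1 := pow_orderOf_eq_one μ
    have h5 := DFunLike.congr_fun h4 (φ u)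
    exact congrArg Units.val h5
  rw [h2]
  exact hg _ _ k (Nat.Coprime.coprime_dvd_right h3 hk) hne

/-- **The general case.** The intersection of `S` with the kernels of all constituents has bounded
index in `S`. -/
theorem relIndex_ker0_le' {θ : G → ℂ} (hθ : IsHeilbronn θ) (hV : Virt θ) (hg : GalStable θ)
    {r : ℕ} (hr : θ 1 = r) (S : Subgroup G) (hSn : S.Normal)
    (hSs : Group.IsSolvable (S.map (QuotientGroup.mk' (ker0 θ)))) :
    (ker0 θ).relIndex S ≤ 37 ^ r := by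
  classical
  have : Fintype G := Fintype.ofFinite G
  let K := ker0 θ
  let π : G →* G ⧸ K := QuotientGroup.mk' K
  have hπ : Function.Surjective π := QuotientGroup.mk'_surjective K
  have hpush : ∀ (n : ℕ) (ρ : Representation ℂ G (Fin n → ℂ)), Irred ρ → pr θ ρ.character ≠ 0 →
      ∃ ρ' : Representation ℂ (G ⧸ K) (Fin n → ℂ), Irred ρ' ∧ (∀ g, ρ' (π g) = ρ g) ∧
        pr (push π θ) ρ'.character ≠ 0 := by
    intro n ρ hρ hne
    let ρ' : Representation ℂ (G ⧸ K) (Fin n → ℂ) :=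
      QuotientGroup.lift K ρ (fun x hx => hx n ρ hρ hne)
    have hρ' : ∀ x, ρ' (π x) = ρ x := fun x => rfl
    refine ⟨ρ', ?_, hρ', ?_⟩
    · refine ⟨hρ.1, fun W hW => hρ.2 W ?_⟩
      intro x v hv
      rw [← hρ']
      exact hW (π x) v hv
    · rw [pr_push hπ]
      exact hne
  obtain ⟨r', hr', hr1⟩ := push_one_nat_le hπ hθ hr
  have hH := push_isHeilbronn hπ hθ
  by_cases hr0 : r' = 0
  · -- no constituents
    have hz : push π θ = 0 := by
      funext g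
      have h2 := hH.norm_le g
      rw [hr1, hr0, Nat.cast_zero, Complex.zero_re] at h2
      simpa using h2
    have hK : ker0 θ = ⊤ := by
      rw [eq_top_iff]
      intro g _ n ρ hρ hne
      obtain ⟨ρ', -, -, h3⟩ := hpush n ρ hρ hne
      rw [hz, pr_zero_left] at h3
      exact absurd rfl h3
    rw [hK, Subgroup.relIndex_top_left]
    exact Nat.one_le_pow _ _ (by norm_num)
  · have hfaith : ∀ g : G ⧸ K, (∀ (n : ℕ) (ρ : Representation ℂ (G ⧸ K) (Fin n → ℂ)), Irred ρ →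
        pr (push π θ) ρ.character ≠ 0 → ρ g = 1) → g = 1 := by
      intro g₁ hg₁
      obtain ⟨g, rfl⟩ := hπ g₁
      have hg : g ∈ K := by
        intro n ρ hρ hne
        obtain ⟨ρ', h1, h2, h3⟩ := hpush n ρ hρ hne
        rw [← h2]
        exact hg₁ n ρ' h1 h3
      exact (QuotientGroup.eq_one_iff g).mpr hg
    have h1 := card_le_of_faith hH (Virt.push hπ hV) (GalStable.push hπ hg) hr1 hr0 hfaith
      (S.map π) (hSn.map π hπ) hSs
    have h2 : (ker0 θ).relIndex S = Nat.card (S.map π) := by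
      have h3 := Subgroup.relIndex_comap (⊥ : Subgroup (G ⧸ K)) π S
      rw [Subgroup.relIndex_bot_left, MonoidHom.comap_bot, QuotientGroup.ker_mk'] at h3
      exact h3
    rw [h2]
    exact h1.trans (Nat.pow_le_pow_right (by norm_num) hr')

theorem relIndex_ker0_le {θ : G → ℂ} (hθ : IsHeilbronn θ) (hV : Virt θ) (hg : GalStable θ)
    {r : ℕ} (hr : θ 1 = r) (S : Subgroup G) (hSn : S.Normal) (hS : Group.IsSolvable S) :
    (ker0 θ).relIndex S ≤ 37 ^ r :=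
  relIndex_ker0_le' hθ hV hg hr S hSn (Group.isSolvable_of_surjective
    (f := (QuotientGroup.mk' (ker0 θ)).subgroupMap S)
    ((QuotientGroup.mk' (ker0 θ)).subgroupMap_surjective S))

/-- the same, if `S / N` is solvable for a normal subgroup `N` in the kernel -/
theorem relIndex_ker0_le_of {θ : G → ℂ} (hθ : IsHeilbronn θ) (hV : Virt θ) (hg : GalStable θ)
    {r : ℕ} (hr : θ 1 = r) (S N : Subgroup G) [N.Normal] (hSn : S.Normal) (hN : N ≤ ker0 θ)
    (hS : Group.IsSolvable (S.map (QuotientGroup.mk' N))) : (ker0 θ).relIndex S ≤ 37 ^ r := by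
  refine relIndex_ker0_le' hθ hV hg hr S hSn ?_
  let f : G ⧸ N →* G ⧸ ker0 θ := QuotientGroup.map N (ker0 θ) (MonoidHom.id G) hN
  have h1 : (S.map (QuotientGroup.mk' N)).map f = S.map (QuotientGroup.mk' (ker0 θ)) := by
    rw [Subgroup.map_map]
    congr 1
  rw [← h1]
  exact Group.isSolvable_of_surjective (f := f.subgroupMap (S.map (QuotientGroup.mk' N)))
    (f.subgroupMap_surjective _)

/-- every constituent is trivial on `ker0` -/
lemma ker0_triv {θ : G → ℂ} {χ : G → ℂ} (hχ : χ ∈ Irr G) (hne : pr θ χ ≠ 0) :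
    ∀ x ∈ ker0 θ, χ x = χ 1 := by
  intro x hx
  obtain ⟨n, ρ, hρ, rfl⟩ := exists_rep hχ
  have h2 : ρ x = 1 := hx n ρ hρ hne
  change LinearMap.trace ℂ _ (ρ x) = LinearMap.trace ℂ _ (ρ 1)
  rw [h2, map_one ρ]

end Pool.Agent.Helper503_BS
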