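import Mathlib

/-!
# Finitely generated abelian groups with an action of a finite group
-/

set_option autoImplicit false
set_option linter.unusedSectionVars false

namespace Pool.Agent.Helper503_BS

open TensorProduct

section

variable (G P : Type) [Group G] [AddCommGroup P] [DistribMulAction G P]

/-- the complex representation of `G` on `ℂ ⊗ P` -/
noncomputable def repC : Representation ℂ G (ℂ ⊗[ℤ] P) where
  toFun g := ((DistribMulAction.toAddMonoidEnd G P g : P →+ P).toIntLinearMap).baseChange ℂ
  map_one' := by
    refine LinearMap.ext fun v => ?_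
    induction v using TensorProduct.induction_on with
    | zero => simp
    | tmul a p => simp
    | add a b ha hb => rw [map_add, ha, hb, map_add]
  map_mul' a b := by
    refine LinearMap.ext fun v => ?_
    induction v using TensorProduct.induction_on with
    | zero => simp
    | tmul a p => simp [mul_smul]
    | add a b ha hb => rw [map_add, ha, hb, map_add]

variable {G P}

@[simp]
lemma repC_tmul (g : G) (a : ℂ) (p : P) : repC G P g (a ⊗ₜ[ℤ] p) = a ⊗ₜ[ℤ] (g • p) := by
  simp [repC]

/-- the map `p ↦ (u • p - p)_u` -/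
noncomputable def delta (U : Subgroup G) : P →ₗ[ℤ] (U → P) :=
  LinearMap.pi fun u => ((DistribMulAction.toAddMonoidEnd G P (u : G) : P →+ P).toIntLinearMap)
    - LinearMap.id

lemma delta_apply (U : Subgroup G) (p : P) (u : U) : delta (P := P) U p u = (u : G) • p - p := rfl

lemma piRight_delta [Finite G] (U : Subgroup G) [Fintype U] [DecidableEq U] (v : ℂ ⊗[ℤ] P) (u : U) :
    TensorProduct.piRight ℤ ℂ ℂ (fun _ : U => P)
      (AlgebraTensorModule.lTensor ℂ ℂ (delta (P := P) U) v) u = repC G P u v - v := by
  induction v using TensorProduct.induction_on with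
  | zero => simp
  | tmul a p =>
    rw [AlgebraTensorModule.lTensor_tmul, repC_tmul, ← tmul_sub, ← delta_apply]
    rfl
  | add a b ha hb =>
    rw [map_add, map_add, Pi.add_apply, ha, hb, map_add]
    abel

lemma mem_ker [Finite G] (U : Subgroup G) (v : ℂ ⊗[ℤ] P) :
    v ∈ LinearMap.ker (AlgebraTensorModule.lTensor ℂ ℂ (delta (P := P) U)) ↔
      ∀ u : U, repC G P u v = v := by
  classical
  have : Fintype U := Fintype.ofFinite U
  rw [LinearMap.mem_ker, ← (TensorProduct.piRight ℤ ℂ ℂ (fun _ : U => P)).map_eq_zero_iff]
  constructor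
  · intro h u
    rw [← sub_eq_zero, ← piRight_delta U v u, h]
    rfl
  · intro h
    funext u
    rw [piRight_delta, h u, sub_self]
    rfl

lemma ker_delta (U : Subgroup G) :
    LinearMap.ker (delta (P := P) U) = (FixedPoints.addSubgroup U P).toIntSubmodule := by
  ext p
  rw [LinearMap.mem_ker]
  constructor
  · intro h
    change p ∈ FixedPoints.addSubgroup U P
    rw [FixedPoints.mem_addSubgroup]
    intro u
    have h1 := congrFun h u
    rw [delta_apply] at h1
    exact sub_eq_zero.mp h1
  · intro h
    change p ∈ FixedPoints.addSubgroup U P at h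
    rw [FixedPoints.mem_addSubgroup] at h
    funext u
    rw [delta_apply]
    exact sub_eq_zero.mpr (h u)

/-- The rank of the group of fixed points is the dimension of the space of invariants. -/
theorem rank_fixed [Finite G] (U : Subgroup G) :
    Module.finrank ℤ (FixedPoints.addSubgroup U P)
      = Module.finrank ℂ (Representation.invariants ((repC G P).comp U.subtype)) := by
  classical
  have h0 : Module.finrank ℤ (FixedPoints.addSubgroup U P)
      = Module.finrank ℤ (LinearMap.ker (delta (P := P) U)) := by
    rw [ker_delta]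
    rfl
  rw [h0, ← (TensorProduct.isBaseChange ℤ (LinearMap.ker (delta (P := P) U)) ℂ).finrank_eq]
  have h1 : (Representation.invariants ((repC G P).comp U.subtype))
      = LinearMap.range (AlgebraTensorModule.lTensor ℂ ℂ (LinearMap.ker (delta (P := P) U)).subtype) := by
    rw [← Module.Flat.ker_lTensor_eq]
    ext v
    rw [mem_ker, Representation.mem_invariants]
    rfl
  rw [h1]
  symm
  apply LinearMap.finrank_range_of_inj
  exact Module.Flat.lTensor_preserves_injective_linearMap (M := ℂ)
    (LinearMap.ker (delta (P := P) U)).subtype (Submodule.injective_subtype _)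

/-- elements of `P` with image zero in `ℂ ⊗ P` are torsion elements -/
lemma torsion_of_tmul (p : P) (h : (1 : ℂ) ⊗ₜ[ℤ] p = 0) : ∃ n : ℕ, 0 < n ∧ n • p = 0 := by
  by_contra hcon
  push Not at hcon
  -- `ℤ → P`, `n ↦ n • p` is injective
  let f : ℤ →ₗ[ℤ] P := LinearMap.toSpanSingleton ℤ P p
  have hf : Function.Injective f := by
    rw [← LinearMap.ker_eq_bot, LinearMap.ker_eq_bot']
    intro m hm
    by_contra hm0
    have h1 : m • p = 0 := hm
    refine hcon m.natAbs (Int.natAbs_pos.mpr hm0) ?_
    rcases Int.natAbs_eq m with h2 | h2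
    · rw [h2, natCast_zsmul] at h1
      exact h1
    · rw [h2, neg_zsmul, natCast_zsmul, neg_eq_zero] at h1
      exact h1
  have h2 := Module.Flat.lTensor_preserves_injective_linearMap (M := ℂ) f hf
  have h3 : LinearMap.lTensor ℂ f ((1 : ℂ) ⊗ₜ[ℤ] (1 : ℤ)) = 0 := by
    rw [LinearMap.lTensor_tmul]
    change (1 : ℂ) ⊗ₜ[ℤ] ((1 : ℤ) • p) = 0
    rw [one_smul, h]
  have h4 : (1 : ℂ) ⊗ₜ[ℤ] (1 : ℤ) = 0 := h2 (by rw [h3, map_zero])
  have h5 := congrArg (TensorProduct.rid ℤ ℂ) h4
  rw [TensorProduct.rid_tmul, map_zero, one_smul] at h5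
  exact one_ne_zero h5

end

end Pool.Agent.Helper503_BS
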