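import Mathlib
import Pool.Agent.Helper503_BS.JorG
import Pool.Agent.Helper503_BS.Rank
import Pool.Agent.Y788.PermRep

/-!
# The Heilbronn function of a finitely generated abelian group with an action of a finite group
-/

set_option autoImplicit false
set_option linter.unusedSectionVars false

namespace Pool.Agent.Helper503_BS

open Pool.Agent.H302R2 Pool.Agent.H541R3.ART Pool.Agent.H302R5 Pool.Agent.H302R6
  Pool.Agent.W446.AS Pool.Agent.Helper503_AD TensorProduct

/-- a function with rational values is stable -/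
theorem rat_stable {G : Type} [Group G] [Finite G] {θ : G → ℂ} (hq : ∀ g, ∃ q : ℚ, θ g = q) :
    GalStable θ := by
  classical
  intro B μ k hk hne h0
  apply hne
  have : Fintype B := Fintype.ofFinite B
  choose q hq using hq
  have hn := orderOf_hom_pos μ
  have : NeZero (orderOf μ) := ⟨hn.ne'⟩
  set n := orderOf μ with hnd
  have hζ := Complex.isPrimitiveRoot_exp n hn.ne'
  set ζ := Complex.exp (2 * Real.pi * Complex.I / n) with hζd
  have hroot : ∀ b : B, ∃ i < n, ζ ^ i = (((μ b)⁻¹ : ℂˣ) : ℂ) := by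
    intro b
    refine hζ.eq_pow_of_pow_eq_one ?_
    have h1 : (μ b) ^ n = 1 := DFunLike.congr_fun (pow_orderOf_eq_one μ) b
    rw [← Units.val_pow_eq_pow_val, inv_pow, h1, inv_one, Units.val_one]
  choose e _ he using hroot
  let f : Polynomial ℚ := ∑ b : B, Polynomial.C (q b) * Polynomial.X ^ (e b)
  have hf : ∀ z : ℂ, Polynomial.aeval z f = ∑ b : B, θ b * z ^ (e b) := by
    intro z
    simp only [f, map_sum, map_mul, Polynomial.aeval_C, map_pow, Polynomial.aeval_X]
    refine Finset.sum_congr rfl fun b _ => ?_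
    rw [hq b]
    rfl
  have h1 : Polynomial.aeval (ζ ^ k) f = pair θ B (μ ^ k) := by
    rw [hf, pair, finsum_eq_sum_of_fintype]
    refine Finset.sum_congr rfl fun b _ => ?_
    rw [← pow_mul, mul_comm k, pow_mul, he]
    congr 1
  have h2 : Polynomial.aeval ζ f = pair θ B μ := by
    rw [hf, pair, finsum_eq_sum_of_fintype]
    refine Finset.sum_congr rfl fun b _ => ?_
    rw [he]
  have hζk : IsPrimitiveRoot (ζ ^ k) n := hζ.pow_of_coprime k hk
  have h3 : minpoly ℚ (ζ ^ k) = minpoly ℚ ζ := by
    rw [← Polynomial.cyclotomic_eq_minpoly_rat hζk hn, ← Polynomial.cyclotomic_eq_minpoly_rat hζ hn]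
  have h4 : minpoly ℚ (ζ ^ k) ∣ f := minpoly.dvd ℚ _ (by rw [h1, h0])
  rw [h3] at h4
  rw [← h2]
  obtain ⟨u, hu⟩ := h4
  rw [hu, map_mul, minpoly.aeval, zero_mul]

variable {G P : Type} [Group G] [Finite G] [AddCommGroup P] [DistribMulAction G P]

/-- the character has rational values -/
lemma repC_rat [Module.Finite ℤ P] (g : G) : ∃ q : ℚ, (repC G P).character g = q := by
  let f : P →ₗ[ℤ] P := (DistribMulAction.toAddMonoidEnd G P g : P →+ P).toIntLinearMap
  let e : ℂ ⊗[ℚ] (ℚ ⊗[ℤ] P) ≃ₗ[ℂ] ℂ ⊗[ℤ] P := AlgebraTensorModule.cancelBaseChange ℤ ℚ ℂ ℂ P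
  have h1 : e.conj ((f.baseChange ℚ).baseChange ℂ) = f.baseChange ℂ := by
    refine LinearMap.ext fun v => ?_
    rw [LinearEquiv.conj_apply]
    have key : ∀ w : ℂ ⊗[ℚ] (ℚ ⊗[ℤ] P),
        e (((f.baseChange ℚ).baseChange ℂ) w) = f.baseChange ℂ (e w) := by
      intro w
      induction w using TensorProduct.induction_on with
      | zero => simp
      | tmul a x =>
        induction x using TensorProduct.induction_on with
        | zero => simp
        | tmul b p =>
          rw [LinearMap.baseChange_tmul, LinearMap.baseChange_tmul]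
          exact (LinearMap.baseChange_tmul (A := ℂ) (f := f) _ _).symm
        | add x y hx hy => rw [tmul_add, map_add, map_add, hx, hy, map_add, map_add]
      | add x y hx hy => rw [map_add, map_add, hx, hy, map_add, map_add]
    rw [LinearMap.comp_apply, LinearMap.comp_apply]
    change e _ = _
    rw [key]
    change f.baseChange ℂ (e (e.symm v)) = _
    rw [e.apply_symm_apply]
  refine ⟨LinearMap.trace ℚ (ℚ ⊗[ℤ] P) (f.baseChange ℚ), ?_⟩
  change LinearMap.trace ℂ (ℂ ⊗[ℤ] P) (f.baseChange ℂ) = _
  rw [← h1, LinearMap.trace_conj', LinearMap.trace_baseChange]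
  rfl

lemma repC_stable [Module.Finite ℤ P] : GalStable (repC G P).character :=
  rat_stable fun g => repC_rat g

end Pool.Agent.Helper503_BS
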