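import Mathlib
import Pool.Agent.Helper503_AD.Art
import Pool.Agent.Helper503_AD.JorFin
import Pool.Agent.Helper503_CP.Layers
import Pool.Agent.Helper503_BS.RatV

/-!
# The conjecture of Birch and Swinnerton-Dyer over the intermediate fields of a Galois extension
-/

set_option autoImplicit false
set_option linter.unusedSectionVars false

namespace Pool.Agent.Helper503_BS

open Pool.Agent.H302R2 Pool.Agent.H541R3.ART Pool.Agent.H302R5 Pool.Agent.H302R6
  Pool.Agent.W446.AS Pool.Agent.R362 Pool.Agent.Helper503_AD Pool.Agent.Helper503_CP TensorProduct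

/-- The rank of the group of the elements of `P` fixed by `U`. For the group `P = A(F)` of points of
an abelian variety over `F` this is the rank of the group of points over the fixed field of `U`. -/
noncomputable def rk {G : Type} [Group G] (P : Type) [AddCommGroup P] [DistribMulAction G P]
    (U : Subgroup G) : ℕ := Module.finrank ℤ (FixedPoints.addSubgroup U P)

/-- The order of vanishing at `1` of the L-function over the fixed field of `U` is the rank of the
group of points over this field. -/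
def BSD {G : Type} [Group G] (A : ArtinData G 1) (P : Type) [AddCommGroup P]
    [DistribMulAction G P] (U : Subgroup G) : Prop :=
  meromorphicOrderAt (A.Lin U 1) 1 = (rk P U : WithTop ℤ)

/-- The L-function of `χ` does not vanish at `1` and has no pole there, and `χ` does not occur in
`ℂ ⊗ P`: both sides of the equivariant conjecture are zero. -/
def BothZero {G : Type} [Group G] (A : ArtinData G 1) (P : Type) [AddCommGroup P]
    [DistribMulAction G P] (χ : G → ℂ) : Prop :=
  meromorphicOrderAt (A.L χ) 1 = 0 ∧ ∑ᶠ g : G, (repC G P).character g * χ g⁻¹ = 0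

variable {G : Type} [Group G] [Finite G]

lemma inv_of_triv {θ : G → ℂ} (hV : Virt θ) (N : Subgroup G) [N.Normal]
    (h : ∀ χ ∈ Irr G, pr θ χ ≠ 0 → ∀ x ∈ N, χ x = χ 1) : ∀ n ∈ N, ∀ x, θ (n * x) = θ x := by
  classical
  intro n hn x
  rw [hV.expand, hV.expand]
  refine Finset.sum_congr rfl fun χ hχ => ?_
  rw [mem_irrF] at hχ
  by_cases h0 : pr θ χ = 0
  · rw [h0, zero_mul, zero_mul]
  · rw [Pool.Agent.TH820.const_of_kernel (irr_heil hχ) N (h χ hχ h0) n hn x]

lemma pr_zero_of_inv {θ : G → ℂ} (N : Subgroup G) [N.Normal] (hc : ∀ n ∈ N, ∀ x, θ (n * x) = θ x)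
    {χ : G → ℂ} (hχ : χ ∈ Irr G) (h : ∃ x ∈ N, χ x ≠ χ 1) : ∑ᶠ g : G, θ g * χ g⁻¹ = 0 := by
  classical
  have : Fintype G := Fintype.ofFinite G
  obtain ⟨x, hx, hne⟩ := h
  rw [finsum_eq_sum_of_fintype]
  exact pair_zero hχ N hc (x := x) hx hne

section data

variable (A : ArtinData G 1) (P : Type) [AddCommGroup P] [DistribMulAction G P]
  [Module.Finite ℤ P]

lemma charV_heil : IsHeilbronn (repC G P).character := Pool.Agent.Y788.rep_heilbronn _

lemma charV_virt : Virt (repC G P).character := char_mem _ (repC G P) rfl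

lemma charV_one {R : ℕ} (hR : Module.finrank ℤ P = R) : (repC G P).character 1 = R := by
  rw [Representation.char_one, (TensorProduct.isBaseChange ℤ P ℂ).finrank_eq, hR]

lemma rk_sum (U : Subgroup G) :
    ∑ᶠ u : U, (repC G P).character u = (rk P U : ℂ) * Nat.card U := by
  classical
  have : Fintype U := Fintype.ofFinite U
  have hc : (Nat.card U : ℂ) ≠ 0 := by exact_mod_cast Nat.card_pos.ne'
  have hinv : Invertible (Nat.card U : ℂ) := invertibleOfNonzero hc
  have h1 := Representation.card_inv_mul_sum_char_eq_finrank (ρ := (repC G P).comp U.subtype)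
  rw [← rank_fixed U, inv_mul_eq_iff_eq_mul₀ hc] at h1
  rw [finsum_eq_sum_of_fintype]
  change _ = (Module.finrank ℤ (FixedPoints.addSubgroup U P) : ℂ) * _
  rw [mul_comm, ← h1]
  rfl

lemma bothZero_of_inv (N : Subgroup G) [N.Normal]
    (hc : ∀ n ∈ N, ∀ x, (theta A.ord : G → ℂ) (n * x) = theta A.ord x)
    (hc' : ∀ n ∈ N, ∀ x, (repC G P).character (n * x) = (repC G P).character x)
    {χ : G → ℂ} (hχ : χ ∈ Irr G) (h : ∃ x ∈ N, χ x ≠ χ 1) : BothZero A P χ := by
  classical
  have : Fintype G := Fintype.ofFinite G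
  refine ⟨?_, pr_zero_of_inv N hc' hχ h⟩
  have h1 := pr_zero_of_inv N hc hχ h
  rw [finsum_eq_sum_of_fintype] at h1
  have h2 := A.order_eq hχ (k := 0) (by rw [h1]; simp)
  exact_mod_cast h2

lemma triv_of_inv (N : Subgroup G) [N.Normal]
    (hc' : ∀ n ∈ N, ∀ x, (repC G P).character (n * x) = (repC G P).character x) :
    ∀ x ∈ N, ∀ p : P, ∃ n : ℕ, 0 < n ∧ n • (x • p - p) = 0 := by
  intro x hx p
  apply torsion_of_tmul
  have h1 := Pool.Agent.Y788.rep_const ((repC G P).comp N.subtype) (fun g => by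
    have h2 := hc' g g.2 1
    rw [mul_one] at h2
    exact h2) ⟨x, hx⟩
  have h3 : repC G P x ((1 : ℂ) ⊗ₜ[ℤ] p) = (1 : ℂ) ⊗ₜ[ℤ] p := by
    have h4 := LinearMap.congr_fun h1 ((1 : ℂ) ⊗ₜ[ℤ] p)
    exact h4
  rw [repC_tmul] at h3
  rw [tmul_sub, h3, sub_self]

lemma order_sup (N : Subgroup G) [N.Normal]
    (hc : ∀ n ∈ N, ∀ x, (theta A.ord : G → ℂ) (n * x) = theta A.ord x) (U : Subgroup G) :
    meromorphicOrderAt (A.Lin U 1) 1 = meromorphicOrderAt (A.Lin (U ⊔ N) 1) 1 := by
  obtain ⟨a, ha⟩ := A.isHeilbronn.mult U 1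
  obtain ⟨b, hb⟩ := A.isHeilbronn.mult (U ⊔ N) 1
  rw [order_of_mult A ha, order_of_mult A hb]
  simp only [MonoidHom.one_apply, inv_one, Units.val_one, mul_one] at ha hb
  rw [mult_sup_of_const N U hc ha hb]

lemma rk_sup (N : Subgroup G) [N.Normal]
    (hc' : ∀ n ∈ N, ∀ x, (repC G P).character (n * x) = (repC G P).character x)
    (U : Subgroup G) : rk P U = rk P (U ⊔ N) :=
  (mult_sup_of_const N U hc' (rk_sum P U) (rk_sum P (U ⊔ N))).symm

end data

end Pool.Agent.Helper503_BS
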