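import Mathlib
import Pool.Agent.Helper503_BS.Core
import Pool.Agent.Helper503_CP.LayMot

/-!
# The theorems
-/

set_option autoImplicit false
set_option linter.unusedSectionVars false

namespace Pool.Agent.Helper503_BS

open Pool.Agent.H302R2 Pool.Agent.H541R3.ART Pool.Agent.H302R5 Pool.Agent.H302R6
  Pool.Agent.W446.AS Pool.Agent.R362 Pool.Agent.Helper503_AD Pool.Agent.Helper503_CP TensorProduct

variable {G : Type} [Group G] [Finite G] (A : ArtinData G 1) (P : Type) [AddCommGroup P]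
  [DistribMulAction G P] [Module.Finite ℤ P] {r R : ℕ}

/-- vanishing is stable under the Galois group -/
def VanishStable (A : ArtinData G 1) : Prop :=
  ∀ (H : Subgroup G) (μ : H →* ℂˣ) (k : ℕ), k.Coprime (orderOf μ) →
    0 < meromorphicOrderAt (A.Lin H μ) 1 → 0 < meromorphicOrderAt (A.Lin H (μ ^ k)) 1

lemma theta_stable (hg : VanishStable A) : GalStable (theta A.ord : G → ℂ) := by
  intro H μ k hk hne
  have key : ∀ ν : H →* ℂˣ, pair (theta A.ord : G → ℂ) H ν ≠ 0 ↔
      0 < meromorphicOrderAt (A.Lin H ν) 1 := by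
    intro ν
    obtain ⟨a, ha⟩ := A.isHeilbronn.mult H ν
    rw [order_of_mult A ha]
    have h1 : pair (theta A.ord : G → ℂ) H ν = a * Nat.card H := ha
    rw [h1]
    have hc : (Nat.card H : ℂ) ≠ 0 := by exact_mod_cast Nat.card_pos.ne'
    constructor
    · intro h
      have h2 : a ≠ 0 := by
        rintro rfl
        simp at h
      have h3 : 0 < a := Nat.pos_of_ne_zero h2
      exact_mod_cast h3
    · intro h
      have h2 : 0 < a := by exact_mod_cast h
      exact mul_ne_zero (by exact_mod_cast h2.ne') hc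
  rw [key] at hne ⊢
  exact hg H μ k hk hne

/-- **The field of bounded degree.** -/
theorem bounded_field (hr : meromorphicOrderAt (A.Lin ⊥ 1) 1 = (r : WithTop ℤ))
    (hR : Module.finrank ℤ P = R) (hg : VanishStable A) (S : Subgroup G) (hSn : S.Normal)
    (hS : Group.IsSolvable S) :
    ∃ N : Subgroup G, N.Normal ∧ N ≤ S ∧ N.relIndex S ≤ 37 ^ (r + R) ∧
      (∀ n ∈ N, ∀ x, (theta A.ord : G → ℂ) (n * x) = theta A.ord x) ∧
      (∀ n ∈ N, ∀ x, (repC G P).character (n * x) = (repC G P).character x) := by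
  have h1 := relIndex_ker0_le A.isHeilbronn (theta_virt A.ord) (theta_stable A hg) (A.theta_one hr)
    S hSn hS
  have h2 := relIndex_ker0_le (charV_heil (G := G) P) (charV_virt (G := G) P) repC_stable
    (charV_one (G := G) P hR) S hSn hS
  refine ⟨(ker0 (theta A.ord : G → ℂ) ⊓ ker0 (repC G P).character) ⊓ S, inferInstance,
    inf_le_right, ?_, ?_, ?_⟩
  · rw [Subgroup.inf_relIndex_right, pow_add]
    exact (Subgroup.relIndex_inf_le).trans (Nat.mul_le_mul h1 h2)
  · refine inv_of_triv (theta_virt A.ord) _ fun χ hχ hne x hx => ?_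
    exact ker0_triv hχ hne x hx.1.1
  · refine inv_of_triv (charV_virt (G := G) P) _ fun χ hχ hne x hx => ?_
    exact ker0_triv hχ hne x hx.1.2

/-- **The almost abelian field.** -/
theorem almost_abelian (hr : meromorphicOrderAt (A.Lin ⊥ 1) 1 = (r : WithTop ℤ))
    (hR : Module.finrank ℤ P = R) (S : Subgroup G) (hSn : S.Normal) (hS : Group.IsSolvable S) :
    ∃ B : Subgroup G, B.Normal ∧ B ≤ S ∧ B.relIndex S ≤ 19 ^ (r + R) ∧
      B.relIndex S ^ 5 ≤ 2 ^ (34 * ((r - 1) + (R - 1))) ∧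
      (∀ n ∈ ⁅B, B⁆, ∀ x, (theta A.ord : G → ℂ) (n * x) = theta A.ord x) ∧
      (∀ n ∈ ⁅B, B⁆, ∀ x, (repC G P).character (n * x) = (repC G P).character x) := by
  obtain ⟨B₁, hn₁, hS₁, ha₁, hb₁, hc₁⟩ := jor_gen A.isHeilbronn (theta_virt A.ord) (A.theta_one hr)
    S hSn hS
  obtain ⟨B₂, hn₂, hS₂, ha₂, hb₂, hc₂⟩ := jor_gen (charV_heil (G := G) P) (charV_virt (G := G) P)
    (charV_one (G := G) P hR) S hSn hS
  have hrel : (B₁ ⊓ B₂).relIndex S ≤ B₁.relIndex S * B₂.relIndex S := Subgroup.relIndex_inf_le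
  have hn : (B₁ ⊓ B₂).Normal := inferInstance
  refine ⟨B₁ ⊓ B₂, hn, inf_le_left.trans hS₁, ?_, ?_, ?_, ?_⟩
  · rw [pow_add]
    exact hrel.trans (Nat.mul_le_mul ha₁ ha₂)
  · rw [mul_add, pow_add]
    refine (Nat.pow_le_pow_left hrel 5).trans ?_
    rw [mul_pow]
    exact Nat.mul_le_mul hb₁ hb₂
  · refine inv_of_triv (theta_virt A.ord) _ fun χ hχ hne x hx => ?_
    exact hc₁ χ hχ hne x (Subgroup.commutator_mono inf_le_left inf_le_left hx)
  · refine inv_of_triv (charV_virt (G := G) P) _ fun χ hχ hne x hx => ?_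
    exact hc₂ χ hχ hne x (Subgroup.commutator_mono inf_le_right inf_le_right hx)

/-- **Layers.** -/
theorem layers_inv (hr : meromorphicOrderAt (A.Lin ⊥ 1) 1 = (r : WithTop ℤ))
    (hR : Module.finrank ℤ P = R) {m : ℕ} (hrm : r ≤ m) (hRm : R ≤ m) (N : Subgroup G)
    (hN : BuiltW m N) :
    (∀ n ∈ N, ∀ x, (theta A.ord : G → ℂ) (n * x) = theta A.ord x) ∧
      (∀ n ∈ N, ∀ x, (repC G P).character (n * x) = (repC G P).character x) :=
  ⟨builtW_const hN A.isHeilbronn hrm (A.theta_one hr),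
    builtW_const hN (charV_heil (G := G) P) hRm (charV_one (G := G) P hR)⟩

lemma le_ker0 {θ : G → ℂ} (N : Subgroup G) [N.Normal]
    (hc : ∀ n ∈ N, ∀ x, θ (n * x) = θ x) : N ≤ ker0 θ := by
  intro x hx n ρ hρ hne
  have hχ : ρ.character ∈ Irr G := irr_of_irred hρ
  -- the character is trivial on `N`
  have h1 : ∀ y ∈ N, ρ.character y = ρ.character 1 := by
    intro y hy
    by_contra h2
    apply hne
    unfold pr
    rw [pr_zero_of_inv N hc hχ ⟨y, hy, h2⟩, mul_zero]
  have h3 := Pool.Agent.Y788.rep_const (ρ.comp N.subtype) (fun g => h1 g g.2) ⟨x, hx⟩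
  exact h3

/-- **Layers and solvable groups.** -/
theorem layers_solvable (hr : meromorphicOrderAt (A.Lin ⊥ 1) 1 = (r : WithTop ℤ))
    (hR : Module.finrank ℤ P = R) (hg : VanishStable A) {m : ℕ} (hrm : r ≤ m) (hRm : R ≤ m)
    (N : Subgroup G) [N.Normal] (hN : BuiltW m N) (S : Subgroup G) (hSn : S.Normal) (hNS : N ≤ S)
    (hS : Group.IsSolvable (S.map (QuotientGroup.mk' N))) :
    ∃ N' : Subgroup G, N'.Normal ∧ N ≤ N' ∧ N' ≤ S ∧ N'.relIndex S ≤ 37 ^ (r + R) ∧
      (∀ n ∈ N', ∀ x, (theta A.ord : G → ℂ) (n * x) = theta A.ord x) ∧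
      (∀ n ∈ N', ∀ x, (repC G P).character (n * x) = (repC G P).character x) := by
  obtain ⟨h3, h4⟩ := layers_inv A P hr hR hrm hRm N hN
  have h5 := le_ker0 N h3
  have h6 := le_ker0 N h4
  have h1 := relIndex_ker0_le_of A.isHeilbronn (theta_virt A.ord) (theta_stable A hg)
    (A.theta_one hr) S N hSn h5 hS
  have h2 := relIndex_ker0_le_of (charV_heil (G := G) P) (charV_virt (G := G) P) repC_stable
    (charV_one (G := G) P hR) S N hSn h6 hS
  refine ⟨(ker0 (theta A.ord : G → ℂ) ⊓ ker0 (repC G P).character) ⊓ S, inferInstance,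
    le_inf (le_inf h5 h6) hNS, inf_le_right, ?_, ?_, ?_⟩
  · rw [Subgroup.inf_relIndex_right, pow_add]
    exact (Subgroup.relIndex_inf_le).trans (Nat.mul_le_mul h1 h2)
  · refine inv_of_triv (theta_virt A.ord) _ fun χ hχ hne x hx => ?_
    exact ker0_triv hχ hne x hx.1.1
  · refine inv_of_triv (charV_virt (G := G) P) _ fun χ hχ hne x hx => ?_
    exact ker0_triv hχ hne x hx.1.2

end Pool.Agent.Helper503_BS
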