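import Mathlib
import Pool.Agent.Helper503_BS.MainB

/-!
# The equivariant conjecture: central products and degrees
-/

set_option autoImplicit false
set_option linter.unusedSectionVars false

namespace Pool.Agent.Helper503_BS

open Pool.Agent.H302R2 Pool.Agent.H541R3.ART Pool.Agent.H302R5 Pool.Agent.H302R6
  Pool.Agent.W446.AS Pool.Agent.R362 Pool.Agent.Helper503_AD Pool.Agent.Helper503_CP TensorProduct

variable {G : Type} [Group G] [Finite G]

/-- central products, for a Heilbronn function -/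
theorem central_gen {θ : G → ℂ} (hθ : IsHeilbronn θ) {r : ℕ} (h1 : θ 1 = r) {ι : Type} [Finite ι]
    {H : ι → Subgroup G} (hc : ∀ i j, i ≠ j → Comm (H i) (H j)) (hH : ⨆ i, H i = ⊤)
    {χ : G → ℂ} (hχ : χ ∈ Irr G) (h0 : ∑ᶠ g : G, θ g * χ g⁻¹ ≠ 0)
    {i : ι} (hi : i ∈ Seen H χ) {μ : ℕ} (hμ : Deg μ (H i)) :
    2 ^ (Nat.card (Seen H χ)) * μ ≤ 2 * r := by
  classical
  have : Fintype G := Fintype.ofFinite G
  have : Fintype ι := Fintype.ofFinite ι
  let J : Finset ι := Finset.univ.filter (· ∈ Seen H χ)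
  have hJ : ∀ j, j ∈ J ↔ j ∈ Seen H χ := fun j => by simp [J]
  let M₀ : Subgroup G := ⨆ j : {j // j ∉ J}, H j
  let ℓ : List (Subgroup G) := (J.erase i).toList.map H
  have hM : ∀ j ∈ J, Comm (H j) M₀ := fun j hj =>
    comm_iSup fun k => hc j k (fun h => k.2 (h ▸ hj))
  have hmem : ∀ K ∈ ℓ, ∃ j ∈ J, j ≠ i ∧ H j = K := by
    intro K hK
    obtain ⟨j, hj, rfl⟩ := List.mem_map.mp hK
    rw [Finset.mem_toList, Finset.mem_erase] at hj
    exact ⟨j, hj.2, hj.1, rfl⟩
  have hpw : ℓ.Pairwise Comm := by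
    rw [List.pairwise_map]
    exact (Finset.nodup_toList _).pairwise_of_forall_ne fun a _ b _ hab => hc a b hab
  have hb := mixed (hM i ((hJ i).mpr hi)) hμ ℓ hpw
    (fun K hK => by obtain ⟨j, hj, -, rfl⟩ := hmem K hK; exact hM j hj)
    (fun K hK => by obtain ⟨j, hj, hji, rfl⟩ := hmem K hK; exact hc j i hji)
  -- the subgroup generated is everything
  have hle : ∀ (ℓ : List (Subgroup G)), M₀ ≤ sp M₀ ℓ := by
    intro ℓ
    induction ℓ with
    | nil => exact le_rfl
    | cons K ℓ ih => exact ih.trans le_sup_right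
  have hsp : sp M₀ (ℓ ++ [H i]) = ⊤ := by
    rw [eq_top_iff, ← hH]
    refine iSup_le fun j => ?_
    by_cases hj : j ∈ J
    · refine le_sp M₀ _ _ ?_
      by_cases hji : j = i
      · subst hji; simp
      · rw [List.mem_append]
        left
        exact List.mem_map.mpr ⟨j, by rw [Finset.mem_toList, Finset.mem_erase]; exact ⟨hji, hj⟩, rfl⟩
    · exact (le_iSup (fun j : {j // j ∉ J} => H j) ⟨j, hj⟩).trans (hle _)
  have hall : ∀ K ∈ ℓ ++ [H i], K.Normal ∧ ∃ d ∈ ⁅K, K⁆, χ d ≠ χ 1 := by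
    intro K hK
    rcases List.mem_append.mp hK with h | h
    · obtain ⟨j, hj, -, rfl⟩ := hmem K h
      exact ⟨normal_of_central hc hH j, (hJ j).mp hj⟩
    · rw [List.mem_singleton.mp h]
      exact ⟨normal_of_central hc hH i, hi⟩
  have hpair := pair_mx hχ θ (ℓ ++ [H i]) hall
  have hex : ∃ y ∈ sp M₀ (ℓ ++ [H i]), mx (ℓ ++ [H i]) θ y ≠ 0 := by
    by_contra hcon
    push Not at hcon
    apply h0
    rw [finsum_eq_sum_of_fintype, ← hpair]
    refine Finset.sum_eq_zero fun g _ => ?_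
    rw [hcon g (by rw [hsp]; trivial), zero_mul]
  have h3 := hb θ (hθ.comp (sp M₀ (ℓ ++ [H i])).subtype) hex
  rw [h1, Complex.natCast_re] at h3
  have hlen : ℓ.length + 1 = Nat.card (Seen H χ) := by
    have h4 : Nat.card (Seen H χ) = J.card := by
      rw [Nat.card_eq_fintype_card, ← Set.toFinset_card]
      congr 1
      ext j
      rw [Set.mem_toFinset, hJ]
    rw [h4, List.length_map, Finset.length_toList, Finset.card_erase_of_mem ((hJ i).mpr hi)]
    have := Finset.card_pos.mpr ⟨i, (hJ i).mpr hi⟩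
    omega
  rw [← hlen, pow_succ]
  have h5 : ((2 ^ ℓ.length * μ : ℕ) : ℝ) ≤ r := by exact_mod_cast h3
  have h6 : 2 ^ ℓ.length * μ ≤ r := by exact_mod_cast h5
  calc 2 ^ ℓ.length * 2 * μ = 2 * (2 ^ ℓ.length * μ) := by ring
    _ ≤ 2 * r := Nat.mul_le_mul_left 2 h6

lemma order_zero_of_pair (A : ArtinData G 1) {χ : G → ℂ} (hχ : χ ∈ Irr G)
    (h : ∑ᶠ g : G, (theta A.ord : G → ℂ) g * χ g⁻¹ = 0) : meromorphicOrderAt (A.L χ) 1 = 0 := by
  classical
  have : Fintype G := Fintype.ofFinite G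
  rw [finsum_eq_sum_of_fintype] at h
  have h2 := A.order_eq hχ (k := 0) (by rw [h]; simp)
  exact_mod_cast h2

/-- central products, for both sides of the equivariant conjecture -/
theorem central_both (A : ArtinData G 1) (P : Type) [AddCommGroup P] [DistribMulAction G P]
    [Module.Finite ℤ P] {r R : ℕ} (hr : meromorphicOrderAt (A.Lin ⊥ 1) 1 = (r : WithTop ℤ))
    (hR : Module.finrank ℤ P = R) {ι : Type} [Finite ι]
    {H : ι → Subgroup G} (hc : ∀ i j, i ≠ j → Comm (H i) (H j)) (hH : ⨆ i, H i = ⊤)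
    {χ : G → ℂ} (hχ : χ ∈ Irr G) {i : ι} (hi : i ∈ Seen H χ) {μ : ℕ} (hμ : Deg μ (H i))
    (h1 : 2 * r < 2 ^ (Nat.card (Seen H χ)) * μ) (h2 : 2 * R < 2 ^ (Nat.card (Seen H χ)) * μ) :
    BothZero A P χ := by
  constructor
  · apply order_zero_of_pair A hχ
    by_contra h0
    have h3 := central_gen A.isHeilbronn (A.theta_one hr) hc hH hχ h0 hi hμ
    omega
  · by_contra h0
    have h3 := central_gen (charV_heil (G := G) P) (charV_one (G := G) P hR) hc hH hχ h0 hi hμ
    omega

/-- an irreducible character of degree larger than the rank does not occur -/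
lemma pair_zero_of_deg (P : Type) [AddCommGroup P] [DistribMulAction G P] [Module.Finite ℤ P]
    {R : ℕ} (hR : Module.finrank ℤ P = R) {χ : G → ℂ} (hχ : χ ∈ Irr G) {d : ℕ} (hd : χ 1 = d)
    (hlt : R < d) : ∑ᶠ g : G, (repC G P).character g * χ g⁻¹ = 0 := by
  classical
  have : Fintype G := Fintype.ofFinite G
  obtain ⟨n, σ, hσ, rfl⟩ := exists_rep hχ
  have hG : (Nat.card G : ℂ) ≠ 0 := by exact_mod_cast Nat.card_pos.ne'
  have : Invertible (Nat.card G : ℂ) := invertibleOfNonzero hG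
  have h := Representation.card_inv_mul_sum_char_mul_char_eq_finrank σ (repC G P)
  rw [finsum_eq_sum_of_fintype]
  by_contra h0
  have hne : Module.finrank ℂ (Representation.IntertwiningMap σ (repC G P)) ≠ 0 := by
    intro h1
    rw [h1, Nat.cast_zero] at h
    rcases mul_eq_zero.mp h with h2 | h2
    · exact inv_ne_zero hG h2
    · exact h0 h2
  have hpos := Nat.pos_of_ne_zero hne
  obtain ⟨f, hf⟩ := Module.finrank_pos_iff_exists_ne_zero.mp hpos
  have hker : LinearMap.ker f.toLinearMap = ⊥ := by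
    rcases hσ.2 (LinearMap.ker f.toLinearMap) (by
      intro g v hv
      rw [LinearMap.mem_ker] at hv ⊢
      have h3 := LinearMap.congr_fun (f.isIntertwining' g) v
      rw [LinearMap.comp_apply, LinearMap.comp_apply, hv, map_zero] at h3
      exact h3) with h4 | h4
    · exact h4
    · exfalso
      apply hf
      apply Representation.IntertwiningMap.ext
      refine LinearMap.ext fun v => ?_
      have h5 : v ∈ LinearMap.ker f.toLinearMap := by rw [h4]; trivial
      exact h5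
  have h5 := LinearMap.finrank_le_finrank_of_injective (LinearMap.ker_eq_bot.mp hker)
  rw [(TensorProduct.isBaseChange ℤ P ℂ).finrank_eq, hR] at h5
  rw [Representation.char_one] at hd
  have h6 : Module.finrank ℂ (Fin n → ℂ) = d := by exact_mod_cast hd
  omega

/-- degrees -/
theorem degree_both (A : ArtinData G 1) (P : Type) [AddCommGroup P] [DistribMulAction G P]
    [Module.Finite ℤ P] {r R : ℕ} (hr : meromorphicOrderAt (A.Lin ⊥ 1) 1 = (r : WithTop ℤ))
    (hR : Module.finrank ℤ P = R) (S : Subgroup G) (hSn : S.Normal) (hS : Group.IsSolvable S)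
    {χ : G → ℂ} (hχ : χ ∈ Irr G) {d : ℕ} (hd : χ 1 = d) (h1 : R < d)
    (h2 : S.index ^ 5 * r ^ 17 < d ^ 5) : BothZero A P χ := by
  refine ⟨?_, pair_zero_of_deg P hR hχ hd h1⟩
  by_contra hne
  obtain ⟨d', e, h3, h4, h5, -⟩ := heil_main A.isHeilbronn (theta_virt A.ord) (A.theta_one hr) S hSn
    hS hχ (fun h => hne (ord_zero A hχ h))
  have h6 : d' = d := by
    rw [hd] at h3
    exact_mod_cast h3.symm
  subst h6
  have h7 : d' ^ 5 ≤ S.index ^ 5 * r ^ 17 := by
    calc d' ^ 5 ≤ (S.index * e) ^ 5 := Nat.pow_le_pow_left h4 5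
      _ = S.index ^ 5 * e ^ 5 := mul_pow _ _ _
      _ ≤ S.index ^ 5 * r ^ 17 := Nat.mul_le_mul_left _ h5
  omega

end Pool.Agent.Helper503_BS
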