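import Mathlib
import Pool.Agent.Helper503_BS.MainB

/-!
# Infinite prosolvable extensions
-/

set_option autoImplicit false
set_option linter.unusedSectionVars false

namespace Pool.Agent.Helper503_BS

open Pool.Agent.H541R3.ART

/-- Let `Γ` be the Galois group of a (possibly infinite) Galois extension `F/K`, let `W` be the
subgroup of a finite Galois extension `F'/K`, and let `o U` and `ρ U` be the analytic and the
algebraic rank of the abelian variety over the fixed field of `U`. The orders `o U` and the ranks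
`ρ U`, for `U` containing `W`, come from the L-functions and from the group of points over `F'`,
and the vanishing of the L-functions is stable under the Galois group. -/
def Models {Γ : Type} [Group Γ] (o ρ : Subgroup Γ → ℕ) (W : Subgroup Γ) [W.Normal] : Prop :=
  ∃ (A : ArtinData (Γ ⧸ W) 1) (P : Type) (_ : AddCommGroup P) (_ : DistribMulAction (Γ ⧸ W) P)
    (_ : Module.Finite ℤ P), VanishStable A ∧
    ∀ U : Subgroup Γ, W ≤ U →
      meromorphicOrderAt (A.Lin (U.map (QuotientGroup.mk' W)) 1) 1 = (o U : WithTop ℤ) ∧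
      rk P (U.map (QuotientGroup.mk' W)) = ρ U

lemma rk_bot {G P : Type} [Group G] [AddCommGroup P] [DistribMulAction G P] :
    rk P (⊥ : Subgroup G) = Module.finrank ℤ P := by
  unfold rk
  have h : FixedPoints.addSubgroup (⊥ : Subgroup G) P = ⊤ := by
    rw [eq_top_iff]
    intro p _
    rw [FixedPoints.mem_addSubgroup]
    rintro ⟨g, hg⟩
    rw [Subgroup.mem_bot] at hg
    subst hg
    exact one_smul G p
  rw [h]
  exact LinearEquiv.finrank_eq (AddSubgroup.topEquiv (G := P)).toIntLinearEquiv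

section

variable {Γ : Type} [Group Γ] (o ρ : Subgroup Γ → ℕ)

/-- the subgroup `N` can be added to the subgroups above `W` -/
def Good (W N : Subgroup Γ) : Prop :=
  N.Normal ∧ ∀ U : Subgroup Γ, W ≤ U → o U = o (U ⊔ N) ∧ ρ U = ρ (U ⊔ N)

variable {o ρ}

lemma Good.sup {W N N' : Subgroup Γ} (h : Good o ρ W N) (h' : Good o ρ W N') :
    Good o ρ W (N ⊔ N') := by
  obtain ⟨hn, h1⟩ := h
  obtain ⟨hn', h2⟩ := h'
  refine ⟨inferInstance, fun U hU => ?_⟩
  have h3 := h1 U hU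
  have h4 := h2 (U ⊔ N) (hU.trans le_sup_left)
  rw [← sup_assoc]
  exact ⟨h3.1.trans h4.1, h3.2.trans h4.2⟩

lemma Good.mono {W W' N : Subgroup Γ} (h : Good o ρ W' N) (hW : W' ≤ W) : Good o ρ W N :=
  ⟨h.1, fun U hU => h.2 U (hW.trans hU)⟩

lemma good_self (W : Subgroup Γ) [W.Normal] : Good o ρ W W :=
  ⟨inferInstance, fun U hU => by rw [sup_eq_left.mpr hU]; exact ⟨rfl, rfl⟩⟩

lemma eq_of_index {H K : Subgroup Γ} (hHK : H ≤ K) (h : H.index = K.index) (h0 : K.index ≠ 0) :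
    K = H := by
  refine le_antisymm ?_ hHK
  rw [← Subgroup.relIndex_eq_one]
  have h1 := Subgroup.relIndex_mul_index hHK
  rw [h] at h1
  exact Nat.eq_of_mul_eq_mul_right (Nat.pos_of_ne_zero h0) (by rw [h1, one_mul])

/-- the finite level -/
theorem finite_level (W : Subgroup Γ) [W.Normal] (hfin : W.index ≠ 0)
    (hsol : Group.IsSolvable (Γ ⧸ W)) (hm : Models o ρ W) {r R : ℕ} (hr : o W ≤ r)
    (hR : ρ W ≤ R) : ∃ N : Subgroup Γ, Good o ρ W N ∧ W ≤ N ∧ N.index ≤ 37 ^ (r + R) := by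
  have hF : Finite (Γ ⧸ W) := by
    have : W.FiniteIndex := ⟨hfin⟩
    exact Subgroup.finite_quotient_of_finiteIndex
  obtain ⟨A, P, _, _, _, hg, hU⟩ := hm
  let π : Γ →* Γ ⧸ W := QuotientGroup.mk' W
  have hπ : Function.Surjective π := QuotientGroup.mk'_surjective W
  have hker : π.ker = W := QuotientGroup.ker_mk' W
  have hWb : W.map π = ⊥ := by
    rw [Subgroup.map_eq_bot_iff, hker]
  have h0 := hU W le_rfl
  have hWb' : W.map (QuotientGroup.mk' W) = ⊥ := hWb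
  rw [hWb', rk_bot] at h0
  have hst : Group.IsSolvable (⊤ : Subgroup (Γ ⧸ W)) :=
    Group.isSolvable_of_surjective (f := (Subgroup.topEquiv (G := Γ ⧸ W)).symm.toMonoidHom)
      (Subgroup.topEquiv (G := Γ ⧸ W)).symm.surjective
  obtain ⟨N, hNn, -, hidx, h1, h2⟩ := bounded_field A P h0.1 h0.2 hg ⊤ inferInstance hst
  have hmap : ∀ U : Subgroup Γ, (U ⊔ N.comap π).map π = U.map π ⊔ N := by
    intro U
    rw [Subgroup.map_sup, Subgroup.map_comap_eq_self_of_surjective hπ]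
  refine ⟨N.comap π, ⟨hNn.comap π, fun U hWU => ?_⟩, ?_, ?_⟩
  · have h3 := hU U hWU
    have h4 := hU (U ⊔ N.comap π) (hWU.trans le_sup_left)
    have h5 := order_sup A N h1 (U.map π)
    have h6 := rk_sup P N h2 (U.map π)
    have h7 : (U ⊔ N.comap π).map (QuotientGroup.mk' W) = U.map π ⊔ N := hmap U
    rw [h7] at h4
    constructor
    · have h8 : ((o U : ℕ) : WithTop ℤ) = ((o (U ⊔ N.comap π) : ℕ) : WithTop ℤ) := by
        rw [← h3.1, ← h4.1]
        exact h5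
      exact_mod_cast h8
    · rw [← h3.2, ← h4.2]
      exact h6
  · exact hker.symm.le.trans (MonoidHom.ker_le_comap π N)
  · rw [Subgroup.index_comap_of_surjective N hπ]
    rw [Subgroup.relIndex_top_right] at hidx
    refine hidx.trans (Nat.pow_le_pow_right (by norm_num) ?_)
    omega

/-- **Infinite extensions.** -/
theorem tower (𝒩 : Set (Subgroup Γ)) (hne : 𝒩.Nonempty)
    (hdir : ∀ W₁ ∈ 𝒩, ∀ W₂ ∈ 𝒩, ∃ W ∈ 𝒩, W ≤ W₁ ∧ W ≤ W₂)
    (C : ℕ) (hW : ∀ W ∈ 𝒩, W.Normal ∧ W.index ≠ 0 ∧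
      ∃ N : Subgroup Γ, Good o ρ W N ∧ W ≤ N ∧ N.index ≤ C) :
    ∃ N : Subgroup Γ, N.Normal ∧ N.index ≤ C ∧ (∃ W ∈ 𝒩, W ≤ N) ∧
      ∀ W ∈ 𝒩, Good o ρ W N := by
  classical
  -- the minimal index
  have hex : ∀ W ∈ 𝒩, ∃ i, ∃ N : Subgroup Γ, Good o ρ W N ∧ W ≤ N ∧ N.index = i :=
    fun W h => by
      obtain ⟨-, -, N, h1, h2, -⟩ := hW W h
      exact ⟨_, N, h1, h2, rfl⟩
  let i : (W : Subgroup Γ) → ℕ := fun W => if h : W ∈ 𝒩 then Nat.find (hex W h) else 0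
  have hi : ∀ W (h : W ∈ 𝒩), i W = Nat.find (hex W h) := fun W h => dif_pos h
  have hmin : ∀ W ∈ 𝒩, ∀ N : Subgroup Γ, Good o ρ W N → W ≤ N → i W ≤ N.index := by
    intro W h N h1 h2
    rw [hi W h]
    exact Nat.find_min' (hex W h) ⟨N, h1, h2, rfl⟩
  have hatt : ∀ W ∈ 𝒩, ∃ N : Subgroup Γ, Good o ρ W N ∧ W ≤ N ∧ N.index = i W := by
    intro W h
    rw [hi W h]
    exact Nat.find_spec (hex W h)
  have hC : ∀ W ∈ 𝒩, i W ≤ C := by
    intro W h
    obtain ⟨-, -, N, h1, h2, h3⟩ := hW W h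
    exact (hmin W h N h1 h2).trans h3
  -- a member with the largest minimal index
  obtain ⟨W₀, hW₀, hmax⟩ : ∃ W₀ ∈ 𝒩, ∀ W ∈ 𝒩, i W ≤ i W₀ := by
    have hfin : (i '' 𝒩).Finite := (Set.finite_Iic C).subset (by
      rintro _ ⟨W, h, rfl⟩
      exact hC W h)
    obtain ⟨m, ⟨W₀, hW₀, rfl⟩, hm⟩ := hfin.exists_maximal (hne.image i)
    refine ⟨W₀, hW₀, fun W h => ?_⟩
    rcases le_total (i W) (i W₀) with h1 | h1
    · exact h1
    · exact hm ⟨W, h, rfl⟩ h1
  obtain ⟨N₀, hg₀, hle₀, hi₀⟩ := hatt W₀ hW₀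
  refine ⟨N₀, hg₀.1, by rw [hi₀]; exact hC W₀ hW₀, ⟨W₀, hW₀, hle₀⟩, fun W h => ?_⟩
  obtain ⟨W', hW', h1, h2⟩ := hdir W h W₀ hW₀
  obtain ⟨N', hg', hle', hi'⟩ := hatt W' hW'
  have hn₀ := (hW W₀ hW₀).1
  have hind' : W'.index ≠ 0 := (hW W' hW').2.1
  have hN'0 : N'.index ≠ 0 := by
    intro h0
    have := Subgroup.index_dvd_of_le hle'
    rw [h0, zero_dvd_iff] at this
    exact hind' this
  -- the sum of the two subgroups
  have hg'' : Good o ρ W₀ ((N' ⊔ W₀) ⊔ N₀) := ((hg'.mono h2).sup (good_self W₀)).sup hg₀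
  have h3 : i W₀ ≤ ((N' ⊔ W₀) ⊔ N₀).index :=
    hmin W₀ hW₀ _ hg'' (le_sup_right.trans le_sup_left)
  have hle1 : N' ≤ (N' ⊔ W₀) ⊔ N₀ := le_sup_left.trans le_sup_left
  have h4 : ((N' ⊔ W₀) ⊔ N₀).index ≤ N'.index :=
    Nat.le_of_dvd (Nat.pos_of_ne_zero hN'0) (Subgroup.index_dvd_of_le hle1)
  have h5 := hmax W' hW'
  have h6 : ((N' ⊔ W₀) ⊔ N₀).index ≠ 0 := by
    intro h0
    have := Subgroup.index_dvd_of_le hle1
    rw [h0, zero_dvd_iff] at this
    exact hN'0 this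
  have h7 : (N' ⊔ W₀) ⊔ N₀ = N' := eq_of_index hle1 (by omega) h6
  have h8 : (N' ⊔ W₀) ⊔ N₀ = N₀ := eq_of_index le_sup_right (by omega) h6
  have h9 : N' = N₀ := h7.symm.trans h8
  rw [← h9]
  exact hg'.mono h1

end

end Pool.Agent.Helper503_BS
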