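import Mathlib
import Pool.Agent.Helper503_BS.Tower
import Pool.Agent.Helper503_BS.Equi

/-!
# Infinite composita: the number of the fields which contribute
-/

set_option autoImplicit false
set_option linter.unusedSectionVars false

namespace Pool.Agent.Helper503_BS

open Pool.Agent.H302R2 Pool.Agent.H541R3.ART Pool.Agent.H302R5 Pool.Agent.H302R6
  Pool.Agent.W446.AS Pool.Agent.R362 Pool.Agent.Helper503_AD Pool.Agent.Helper503_CP

/-- Let `Γ` be the Galois group of a (possibly infinite) Galois extension `F/K`, let `W` be the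
subgroup of a finite Galois extension `F'/K`, and let `o U` and `ρ U` be the order of vanishing and
the rank over the fixed field of `U`. The orders `o U` and the ranks `ρ U`, for `U` containing `W`,
come from the L-functions, and from a finitely generated group with an action of `Γ ⧸ W`. -/
def ModelsL {Γ : Type} [Group Γ] (o ρ : Subgroup Γ → ℕ) (W : Subgroup Γ) [W.Normal] : Prop :=
  ∃ (A : ArtinData (Γ ⧸ W) 1) (P : Type) (_ : AddCommGroup P) (_ : DistribMulAction (Γ ⧸ W) P)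
    (_ : Module.Finite ℤ P),
    ∀ U : Subgroup Γ, W ≤ U →
      meromorphicOrderAt (A.Lin (U.map (QuotientGroup.mk' W)) 1) 1 = (o U : WithTop ℤ) ∧
      rk P (U.map (QuotientGroup.mk' W)) = ρ U

section

variable {Γ : Type} [Group Γ] {o ρ : Subgroup Γ → ℕ} {ι : Type} {H : ι → Subgroup Γ}

/-- the finite level -/
theorem active_le (hn : ∀ i, (H i).Normal)
    (hc : ∀ i j, i ≠ j → ∀ a ∈ H i, ∀ b ∈ H j, a * b = b * a)
    (W : Subgroup Γ) [W.Normal] (hfin : W.index ≠ 0) (w : ι → ℕ)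
    (hw : ∀ i, Weight (w i) ((H i).map (QuotientGroup.mk' W)))
    (hm : ModelsL o ρ W) {r R : ℕ} (hr : o W ≤ r) (hR : ρ W ≤ R)
    (s : Finset ι) (hs : ∀ i ∈ s, ¬ Good o ρ W ⁅H i, H i⁆) : ∑ i ∈ s, w i ≤ r + R := by
  classical
  have hF : Finite (Γ ⧸ W) := by
    have : W.FiniteIndex := ⟨hfin⟩
    exact Subgroup.finite_quotient_of_finiteIndex
  obtain ⟨A, P, _, _, _, hU⟩ := hm
  let π : Γ →* Γ ⧸ W := QuotientGroup.mk' W
  have hπ : Function.Surjective π := QuotientGroup.mk'_surjective W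
  have hker : π.ker = W := QuotientGroup.ker_mk' W
  have hWb : W.map π = ⊥ := by
    rw [Subgroup.map_eq_bot_iff, hker]
  have h0 := hU W le_rfl
  have hWb' : W.map (QuotientGroup.mk' W) = ⊥ := hWb
  rw [hWb', rk_bot] at h0
  let H' : ι → Subgroup (Γ ⧸ W) := fun i => (H i).map π
  have hn' : ∀ i, (H' i).Normal := fun i => (hn i).map π hπ
  have hc' : ∀ i j, i ≠ j → Comm (H' i) (H' j) := by
    rintro i j hij _ ⟨a, ha, rfl⟩ _ ⟨b, hb, rfl⟩
    rw [← map_mul, ← map_mul, hc i j hij a ha b hb]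
  have hθ := A.isHeilbronn
  have hφ := charV_heil (G := Γ ⧸ W) P
  let θ : Γ ⧸ W → ℂ := theta A.ord
  let φ : Γ ⧸ W → ℂ := (repC (Γ ⧸ W) P).character
  have hbound : ∀ (ψ : Γ ⧸ W → ℂ) (d : ℕ), IsHeilbronn ψ → ψ 1 = d →
      ∑ i ∈ s.filter (fun i => ∃ x ∈ ⁅H' i, H' i⁆, ψ x ≠ ψ 1), w i ≤ d := by
    intro ψ d hψ h1
    have h3 := count hc' (fun i => (hw i).deg)
      (s.filter (fun i => ∃ x ∈ ⁅H' i, H' i⁆, ψ x ≠ ψ 1)) ⊤ (fun _ _ => le_top) ψ
      (hψ.comp (⊤ : Subgroup (Γ ⧸ W)).subtype) (fun i hi => (Finset.mem_filter.mp hi).2)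
    have h4 : (ψ 1).re = d := by rw [h1, Complex.natCast_re]
    rw [h4] at h3
    exact_mod_cast h3
  have hcover : s ⊆ s.filter (fun i => ∃ x ∈ ⁅H' i, H' i⁆, θ x ≠ θ 1) ∪
      s.filter (fun i => ∃ x ∈ ⁅H' i, H' i⁆, φ x ≠ φ 1) := by
    intro i hi
    by_contra hcon
    rw [Finset.mem_union, Finset.mem_filter, Finset.mem_filter] at hcon
    push Not at hcon
    apply hs i hi
    have hHn := hn i
    have hHn' := hn' i
    have hD : (⁅H' i, H' i⁆ : Subgroup (Γ ⧸ W)).Normal := inferInstance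
    have hDn : (⁅H i, H i⁆ : Subgroup Γ).Normal := inferInstance
    have h1 := Pool.Agent.TH820.const_of_kernel hθ ⁅H' i, H' i⁆ (hcon.1 hi)
    have h2 := Pool.Agent.TH820.const_of_kernel hφ ⁅H' i, H' i⁆ (hcon.2 hi)
    have hmapD : (⁅H i, H i⁆ : Subgroup Γ).map π = ⁅H' i, H' i⁆ := Subgroup.map_commutator _ _ π
    refine ⟨hDn, fun U hWU => ?_⟩
    have h3 := hU U hWU
    have h4 := hU (U ⊔ ⁅H i, H i⁆) (hWU.trans le_sup_left)
    have h5 := order_sup A ⁅H' i, H' i⁆ h1 (U.map π)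
    have h6 := rk_sup P ⁅H' i, H' i⁆ h2 (U.map π)
    have h7 : (U ⊔ ⁅H i, H i⁆).map (QuotientGroup.mk' W) = U.map π ⊔ ⁅H' i, H' i⁆ := by
      rw [← hmapD]
      exact Subgroup.map_sup _ _ π
    rw [h7] at h4
    constructor
    · have h8 : ((o U : ℕ) : WithTop ℤ) = ((o (U ⊔ ⁅H i, H i⁆) : ℕ) : WithTop ℤ) := by
        rw [← h3.1, ← h4.1]
        exact h5
      exact_mod_cast h8
    · rw [← h3.2, ← h4.2]
      exact h6
  calc ∑ i ∈ s, w i ≤ ∑ i ∈ s.filter (fun i => ∃ x ∈ ⁅H' i, H' i⁆, θ x ≠ θ 1) ∪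
        s.filter (fun i => ∃ x ∈ ⁅H' i, H' i⁆, φ x ≠ φ 1), w i :=
        Finset.sum_le_sum_of_subset hcover
    _ ≤ ∑ i ∈ s.filter (fun i => ∃ x ∈ ⁅H' i, H' i⁆, θ x ≠ θ 1), w i +
        ∑ i ∈ s.filter (fun i => ∃ x ∈ ⁅H' i, H' i⁆, φ x ≠ φ 1), w i := by
        rw [← Finset.sum_union_inter]
        exact Nat.le_add_right _ _
    _ ≤ o W + ρ W := by
        refine Nat.add_le_add (hbound θ (o W) hθ (A.theta_one h0.1)) ?_
        exact hbound φ (ρ W) hφ (charV_one (G := Γ ⧸ W) P h0.2)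
    _ ≤ r + R := by omega

lemma good_bot (W : Subgroup Γ) : Good o ρ W ⊥ :=
  ⟨inferInstance, fun U _ => by rw [sup_bot_eq]; exact ⟨rfl, rfl⟩⟩

lemma good_finset (W : Subgroup Γ) (D : ι → Subgroup Γ) (s : Finset ι)
    (h : ∀ i ∈ s, Good o ρ W (D i)) : Good o ρ W (s.sup D) := by
  classical
  induction s using Finset.induction_on with
  | empty => exact good_bot W
  | insert i s hi ih =>
    rw [Finset.sup_insert]
    exact (h i (Finset.mem_insert_self i s)).sup (ih fun j hj => h j (Finset.mem_insert_of_mem hj))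

/-- infinite suprema -/
lemma good_iSup (W : Subgroup Γ) (hfin : W.index ≠ 0) {κ : Type} (D : κ → Subgroup Γ)
    (hDn : ∀ i, (D i).Normal) (h : ∀ i, Good o ρ W (D i)) : Good o ρ W (⨆ i, D i) := by
  classical
  refine ⟨Subgroup.iSup_normal _, fun U hWU => ?_⟩
  -- a finite subset of minimal index
  obtain ⟨s, hs⟩ : ∃ s : Finset κ, ∀ t : Finset κ, (U ⊔ s.sup D).index ≤ (U ⊔ t.sup D).index := by
    have hex : ∃ n, ∃ s : Finset κ, (U ⊔ s.sup D).index = n := ⟨_, ∅, rfl⟩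
    obtain ⟨s, hs⟩ := Nat.find_spec hex
    exact ⟨s, fun t => by rw [hs]; exact Nat.find_min' hex ⟨t, rfl⟩⟩
  have hU0 : ∀ t : Finset κ, (U ⊔ t.sup D).index ≠ 0 := by
    intro t h0
    have := Subgroup.index_dvd_of_le (hWU.trans (le_sup_left : U ≤ U ⊔ t.sup D))
    rw [h0, zero_dvd_iff] at this
    exact hfin this
  have hle : ∀ i, D i ≤ U ⊔ s.sup D := by
    intro i
    have h1 : U ⊔ s.sup D ≤ U ⊔ (insert i s).sup D :=
      sup_le_sup_left (Finset.sup_mono (Finset.subset_insert i s)) U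
    have h2 : (U ⊔ (insert i s).sup D).index ≤ (U ⊔ s.sup D).index :=
      Nat.le_of_dvd (Nat.pos_of_ne_zero (hU0 s)) (Subgroup.index_dvd_of_le h1)
    have h3 := eq_of_index h1 (le_antisymm (hs _) h2) (hU0 _)
    rw [← h3]
    exact (Finset.le_sup (f := D) (Finset.mem_insert_self i s)).trans le_sup_right
  have heq : U ⊔ ⨆ i, D i = U ⊔ s.sup D := by
    apply le_antisymm
    · exact sup_le le_sup_left (iSup_le hle)
    · exact sup_le_sup_left (Finset.sup_le fun i _ => le_iSup D i) U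
  rw [heq]
  exact (good_finset W D s fun i _ => h i).2 U hWU

/-- **Infinite composita.** -/
theorem active_main {κ : Type} [Nonempty κ] (W : κ → Subgroup Γ) [∀ k, (W k).Normal]
    (hfin : ∀ k, (W k).index ≠ 0) (hdir : ∀ i j, ∃ k, W k ≤ W i ∧ W k ≤ W j)
    (hmod : ∀ k, ModelsL o ρ (W k)) {r R : ℕ} (hr : ∀ k, o (W k) ≤ r) (hR : ∀ k, ρ (W k) ≤ R)
    (hn : ∀ i, (H i).Normal) (hc : ∀ i j, i ≠ j → ∀ a ∈ H i, ∀ b ∈ H j, a * b = b * a)
    (w : ι → ℕ) (hw0 : ∀ i, 0 < w i)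
    (hw : ∀ i k, Weight (w i) ((H i).map (QuotientGroup.mk' (W k)))) :
    ∃ J : Finset ι, ∑ i ∈ J, w i ≤ r + R ∧
      ∀ k, Good o ρ (W k) (⨆ i : {i // i ∉ J}, ⁅H i, H i⁆) := by
  classical
  let I : Set ι := {i | ∃ k, ¬ Good o ρ (W k) ⁅H i, H i⁆}
  have hsum : ∀ s : Finset ι, (s : Set ι) ⊆ I → ∑ i ∈ s, w i ≤ r + R := by
    intro s hs
    -- a common level
    have hlev : ∀ t : Finset ι, (t : Set ι) ⊆ I → ∃ k, ∀ i ∈ t, ¬ Good o ρ (W k) ⁅H i, H i⁆ := by
      intro t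
      induction t using Finset.induction_on with
      | empty =>
        intro _
        obtain ⟨k⟩ := ‹Nonempty κ›
        exact ⟨k, fun i hi => absurd hi (Finset.notMem_empty i)⟩
      | insert i t hi ih =>
        intro ht
        obtain ⟨k₁, hk₁⟩ := ih fun j hj => ht (Finset.mem_insert_of_mem hj)
        obtain ⟨k₂, hk₂⟩ := ht (Finset.mem_insert_self i t)
        obtain ⟨k, h1, h2⟩ := hdir k₁ k₂
        refine ⟨k, fun j hj hgood => ?_⟩
        rcases Finset.mem_insert.mp hj with rfl | hj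
        · exact hk₂ (hgood.mono h2)
        · exact hk₁ j hj (hgood.mono h1)
    obtain ⟨k, hk⟩ := hlev s hs
    exact active_le hn hc (W k) (hfin k) w (fun i => hw i k) (hmod k) (hr k) (hR k) s hk
  have hIfin : I.Finite := by
    by_contra hinf
    obtain ⟨t, ht, htc⟩ := Set.Infinite.exists_subset_card_eq hinf (r + R + 1)
    have h1 := hsum t ht
    have h2 : t.card ≤ ∑ i ∈ t, w i := by
      rw [Finset.card_eq_sum_ones]
      exact Finset.sum_le_sum fun i _ => hw0 i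
    omega
  refine ⟨hIfin.toFinset, hsum _ (by simp), fun k => ?_⟩
  refine good_iSup (W k) (hfin k) (fun i : {i // i ∉ hIfin.toFinset} => ⁅H i, H i⁆) (fun i => ?_)
    (fun i => ?_)
  · have := hn i
    infer_instance
  · have h1 := i.2
    rw [Set.Finite.mem_toFinset] at h1
    by_contra h2
    exact h1 ⟨k, h2⟩

end

end Pool.Agent.Helper503_BS
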