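import Mathlib
import Pool.Agent.Helper503_CP.LayMot
import Pool.Agent.W446.AS.Virt
import Pool.Agent.R362.LocalArt
import Pool.Agent.Y788.PermRep

/-!
# Artin L-functions of infinite composita
-/

set_option autoImplicit false
set_option linter.unusedSectionVars false

namespace Pool.Agent.Helper503_BS

open Pool.Agent.H302R2 Pool.Agent.H541R3.ART Pool.Agent.H302R5 Pool.Agent.H302R6
  Pool.Agent.W446.AS Pool.Agent.R362 Pool.Agent.Helper503_CP

section

variable {G : Type} [Group G] [Finite G] {s₀ : ℂ}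

/-- the finite level: the factors which occur in some character with a zero or a pole -/
theorem artin_active (A : ArtinData G s₀) {r : ℕ}
    (hr : meromorphicOrderAt (A.Lin ⊥ 1) s₀ ≤ (r : WithTop ℤ)) {ι : Type} {H : ι → Subgroup G}
    (hn : ∀ i, (H i).Normal) (hc : ∀ i j, i ≠ j → Comm (H i) (H j)) (w : ι → ℕ)
    (hw : ∀ i, Weight (w i) (H i)) (s : Finset ι)
    (hs : ∀ i ∈ s, ∃ χ ∈ Irr G, meromorphicOrderAt (A.L χ) s₀ ≠ 0 ∧ ∃ x ∈ ⁅H i, H i⁆, χ x ≠ χ 1) :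
    ∑ i ∈ s, w i ≤ r := by
  classical
  have : Fintype G := Fintype.ofFinite G
  have hθ := A.isHeilbronn
  obtain ⟨a, ha⟩ := hθ.mult ⊥ 1
  have hord := order_of_mult A ha
  have h1 := A.theta_one hord
  have har : a ≤ r := by
    rw [hord] at hr
    exact_mod_cast hr
  have h2 : ∀ i ∈ s, ∃ d ∈ ⁅H i, H i⁆, (theta A.ord : G → ℂ) d ≠ theta A.ord 1 := by
    intro i hi
    by_contra hcon
    push Not at hcon
    obtain ⟨χ, hχ, hne, x, hx, hxne⟩ := hs i hi
    have hin := hn i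
    have hD : (⁅H i, H i⁆ : Subgroup G).Normal := inferInstance
    have h3 := Pool.Agent.TH820.const_of_kernel hθ ⁅H i, H i⁆ hcon
    have h4 := pair_zero hχ ⁅H i, H i⁆ h3 (x := x) hx hxne
    apply hne
    have h5 := A.order_eq hχ (k := 0) (by rw [h4]; simp)
    exact_mod_cast h5
  have h3 := count hc (fun i => (hw i).deg) s ⊤ (fun _ _ => le_top) (theta A.ord)
    (hθ.comp (⊤ : Subgroup G).subtype) h2
  have h4 : ((theta A.ord : G → ℂ) 1).re = a := by rw [h1, Complex.natCast_re]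
  rw [h4] at h3
  have h5 : ∑ i ∈ s, w i ≤ a := by exact_mod_cast h3
  exact h5.trans har

end

section

variable {Γ : Type} [Group Γ] {s₀ : ℂ} {κ : Type} {W : κ → Subgroup Γ} [∀ k, (W k).Normal]

/-- the map between the finite quotients -/
def trans {k k' : κ} (h : W k' ≤ W k) : Γ ⧸ W k' →* Γ ⧸ W k :=
  QuotientGroup.map (W k') (W k) (MonoidHom.id Γ) h

lemma trans_mk {k k' : κ} (h : W k' ≤ W k) (x : Γ) :
    trans h (QuotientGroup.mk' (W k') x) = QuotientGroup.mk' (W k) x := rfl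

lemma trans_surj {k k' : κ} (h : W k' ≤ W k) : Function.Surjective (trans h) := by
  intro y
  obtain ⟨x, rfl⟩ := QuotientGroup.mk'_surjective (W k) y
  exact ⟨QuotientGroup.mk' (W k') x, rfl⟩

/-- The orders at `s₀` of the L-functions of the characters of the finite quotients of `Γ` do not
change under inflation. -/
def Compat (D : ∀ k, ArtinData (Γ ⧸ W k) s₀) : Prop :=
  ∀ (k k' : κ) (h : W k' ≤ W k), ∀ χ ∈ Irr (Γ ⧸ W k),
    meromorphicOrderAt ((D k').L (fun x => χ (trans h x))) s₀ = meromorphicOrderAt ((D k).L χ) s₀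

variable {ι : Type} {H : ι → Subgroup Γ}

/-- **Infinite composita.** -/
theorem artin_composita [Nonempty κ] (hfin : ∀ k, (W k).index ≠ 0)
    (hdir : ∀ i j, ∃ k, W k ≤ W i ∧ W k ≤ W j) (D : ∀ k, ArtinData (Γ ⧸ W k) s₀) (hD : Compat D)
    {r : ℕ} (hr : ∀ k, meromorphicOrderAt ((D k).Lin ⊥ 1) s₀ ≤ (r : WithTop ℤ))
    (hn : ∀ i, (H i).Normal) (hc : ∀ i j, i ≠ j → ∀ a ∈ H i, ∀ b ∈ H j, a * b = b * a)
    (w : ι → ℕ) (hw0 : ∀ i, 0 < w i)
    (hw : ∀ i k, Weight (w i) ((H i).map (QuotientGroup.mk' (W k)))) :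
    ∃ J : Finset ι, ∑ i ∈ J, w i ≤ r ∧ ∀ k, ∀ χ ∈ Irr (Γ ⧸ W k),
      (∃ i ∉ J, ∃ x ∈ ⁅H i, H i⁆, χ (QuotientGroup.mk' (W k) x) ≠ χ 1) →
        meromorphicOrderAt ((D k).L χ) s₀ = 0 := by
  classical
  have hF : ∀ k, Finite (Γ ⧸ W k) := fun k => by
    have : (W k).FiniteIndex := ⟨hfin k⟩
    exact Subgroup.finite_quotient_of_finiteIndex
  let Act : κ → ι → Prop := fun k i => ∃ χ ∈ Irr (Γ ⧸ W k), meromorphicOrderAt ((D k).L χ) s₀ ≠ 0 ∧
    ∃ x ∈ ⁅H i, H i⁆, χ (QuotientGroup.mk' (W k) x) ≠ χ 1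
  have hmono : ∀ k k' (_ : W k' ≤ W k) i, Act k i → Act k' i := by
    rintro k k' h i ⟨χ, hχ, hne, x, hx, hxne⟩
    refine ⟨fun y => χ (trans h y), infl_irr (trans_surj h) hχ, ?_, x, hx, ?_⟩
    · rw [hD k k' h χ hχ]
      exact hne
    · change χ (trans h (QuotientGroup.mk' (W k') x)) ≠ χ (trans h 1)
      rw [trans_mk, map_one]
      exact hxne
  let I : Set ι := {i | ∃ k, Act k i}
  have hsum : ∀ s : Finset ι, (s : Set ι) ⊆ I → ∑ i ∈ s, w i ≤ r := by
    intro s hs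
    have hlev : ∀ t : Finset ι, (t : Set ι) ⊆ I → ∃ k, ∀ i ∈ t, Act k i := by
      intro t
      induction t using Finset.induction_on with
      | empty =>
        intro _
        obtain ⟨k⟩ := ‹Nonempty κ›
        exact ⟨k, fun i hi => absurd hi (Finset.notMem_empty i)⟩
      | insert i t hi ih =>
        intro ht
        obtain ⟨k₁, hk₁⟩ := ih fun j hj => ht (Finset.mem_insert_of_mem hj)
        obtain ⟨k₂, hk₂⟩ := ht (Finset.mem_insert_self i t)
        obtain ⟨k, h1, h2⟩ := hdir k₁ k₂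
        refine ⟨k, fun j hj => ?_⟩
        rcases Finset.mem_insert.mp hj with rfl | hj
        · exact hmono k₂ k h2 _ hk₂
        · exact hmono k₁ k h1 _ (hk₁ j hj)
    obtain ⟨k, hk⟩ := hlev s hs
    let π : Γ →* Γ ⧸ W k := QuotientGroup.mk' (W k)
    have hπ : Function.Surjective π := QuotientGroup.mk'_surjective (W k)
    refine artin_active (D k) (hr k) (H := fun i => (H i).map π) (fun i => (hn i).map π hπ) ?_ w
      (fun i => hw i k) s ?_
    · rintro i j hij _ ⟨a, ha, rfl⟩ _ ⟨b, hb, rfl⟩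
      rw [← map_mul, ← map_mul, hc i j hij a ha b hb]
    · intro i hi
      obtain ⟨χ, hχ, hne, x, hx, hxne⟩ := hk i hi
      refine ⟨χ, hχ, hne, π x, ?_, hxne⟩
      rw [← Subgroup.map_commutator]
      exact ⟨x, hx, rfl⟩
  have hIfin : I.Finite := by
    by_contra hinf
    obtain ⟨t, ht, htc⟩ := Set.Infinite.exists_subset_card_eq hinf (r + 1)
    have h1 := hsum t ht
    have h2 : t.card ≤ ∑ i ∈ t, w i := by
      rw [Finset.card_eq_sum_ones]
      exact Finset.sum_le_sum fun i _ => hw0 i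
    omega
  refine ⟨hIfin.toFinset, hsum _ (by simp), ?_⟩
  rintro k χ hχ ⟨i, hi, x, hx, hxne⟩
  by_contra hne
  apply hi
  rw [Set.Finite.mem_toFinset]
  exact ⟨k, χ, hχ, hne, x, hx, hxne⟩

/-- characters which are trivial on some normal subgroups are trivial on the subgroup generated -/
lemma triv_iSup {G : Type} [Group G] [Finite G] {χ : G → ℂ} (hχ : χ ∈ Irr G) {ι' : Type}
    (D : ι' → Subgroup G) (h : ∀ i, ∀ x ∈ D i, χ x = χ 1) : ∀ x ∈ ⨆ i, D i, χ x = χ 1 := by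
  obtain ⟨n, ρ, hρ, rfl⟩ := exists_rep hχ
  have hker : ⨆ i, D i ≤ ρ.ker := by
    refine iSup_le fun i d hd => ?_
    exact Pool.Agent.Y788.rep_const (ρ.comp (D i).subtype) (fun g => h i g g.2) ⟨d, hd⟩
  intro x hx
  have h3 : ρ x = 1 := hker hx
  change LinearMap.trace ℂ _ (ρ x) = LinearMap.trace ℂ _ (ρ 1)
  rw [h3, map_one ρ]

/-- the same as `artin_composita`, for the subgroup generated by the commutator subgroups -/
theorem artin_composita_sup [Nonempty κ] (hfin : ∀ k, (W k).index ≠ 0)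
    (hdir : ∀ i j, ∃ k, W k ≤ W i ∧ W k ≤ W j) (D : ∀ k, ArtinData (Γ ⧸ W k) s₀) (hD : Compat D)
    {r : ℕ} (hr : ∀ k, meromorphicOrderAt ((D k).Lin ⊥ 1) s₀ ≤ (r : WithTop ℤ))
    (hn : ∀ i, (H i).Normal) (hc : ∀ i j, i ≠ j → ∀ a ∈ H i, ∀ b ∈ H j, a * b = b * a)
    (w : ι → ℕ) (hw0 : ∀ i, 0 < w i)
    (hw : ∀ i k, Weight (w i) ((H i).map (QuotientGroup.mk' (W k)))) :
    ∃ (J : Finset ι) (N : Subgroup Γ), N = ⨆ i : {i // i ∉ J}, ⁅H i, H i⁆ ∧ N.Normal ∧
      ∑ i ∈ J, w i ≤ r ∧ ∀ k, ∀ χ ∈ Irr (Γ ⧸ W k),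
      (∃ x ∈ N.map (QuotientGroup.mk' (W k)), χ x ≠ χ 1) →
        meromorphicOrderAt ((D k).L χ) s₀ = 0 := by
  classical
  have hF : ∀ k, Finite (Γ ⧸ W k) := fun k => by
    have : (W k).FiniteIndex := ⟨hfin k⟩
    exact Subgroup.finite_quotient_of_finiteIndex
  obtain ⟨J, hJ, h1⟩ := artin_composita hfin hdir D hD hr hn hc w hw0 hw
  have hDn : ∀ i : {i // i ∉ J}, (⁅H i, H i⁆ : Subgroup Γ).Normal := fun i => by
    have := hn i
    infer_instance
  refine ⟨J, _, rfl, Subgroup.iSup_normal _, hJ, ?_⟩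
  rintro k χ hχ ⟨x, hx, hne⟩
  by_contra hord
  apply hne
  rw [Subgroup.map_iSup] at hx
  refine triv_iSup hχ (fun i : {i // i ∉ J} => (⁅H i, H i⁆ : Subgroup Γ).map
    (QuotientGroup.mk' (W k))) ?_ x hx
  rintro i _ ⟨d, hd, rfl⟩
  by_contra h2
  exact hord (h1 k χ hχ ⟨i, i.2, d, hd, h2⟩)

/-- products of L-functions -/
theorem motive_of_chars {G : Type} [Group G] [Finite G] (A : ArtinData G s₀) (N : Subgroup G)
    [N.Normal] (h0 : ∀ χ ∈ Irr G, (∃ x ∈ N, χ x ≠ χ 1) → meromorphicOrderAt (A.L χ) s₀ = 0)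
    {V : Type} [AddCommGroup V] [Module ℚ V] [FiniteDimensional ℚ V] (ρ : Representation ℚ G V)
    (m : (G → ℂ) → ℕ)
    (hm : ∀ χ ∈ Irr G, ∑ᶠ g : G, ((ρ.character g : ℚ) : ℂ) * χ g⁻¹ = (m χ : ℂ) * (Nat.card G : ℂ))
    (hfix : ∀ v, (∀ n ∈ N, ρ n v = v) → v = 0) :
    meromorphicOrderAt (fun s => ∏ᶠ χ ∈ Irr G, A.L χ s ^ m χ) s₀ = 0 := by
  classical
  have : Fintype G := Fintype.ofFinite G
  rw [order_prod]
  have hz : ∀ χ ∈ irrF G, (m χ : ℤ) * A.ord χ = 0 := by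
    intro χ hχ
    rw [mem_irrF] at hχ
    by_cases h : ∃ n ∈ N, χ n ≠ χ 1
    · have h1 := A.coe_ord hχ
      rw [h0 χ hχ h] at h1
      have h2 : A.ord χ = 0 := by exact_mod_cast h1
      rw [h2, mul_zero]
    · push Not at h
      have h1 := rep_pair_zero ρ N hfix hχ h
      have h2 := hm χ hχ
      rw [finsum_eq_sum_of_fintype, h1] at h2
      have hG : (Nat.card G : ℂ) ≠ 0 := by exact_mod_cast Nat.card_pos.ne'
      rcases mul_eq_zero.mp h2.symm with h3 | h3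
      · have h4 : m χ = 0 := by exact_mod_cast h3
        rw [h4, Nat.cast_zero, zero_mul]
      · exact absurd h3 hG
  rw [Finset.sum_eq_zero hz]
  rfl

end

end Pool.Agent.Helper503_BS
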