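import Mathlib
import Pool.Agent.Helper503_BS.Equi

/-!
# Representations over fields of characteristic zero on the algebraic side
-/

set_option autoImplicit false
set_option linter.unusedSectionVars false

namespace Pool.Agent.Helper503_BS

open Pool.Agent.H302R2 Pool.Agent.H541R3.ART Pool.Agent.H302R5 Pool.Agent.H302R6
  Pool.Agent.W446.AS Pool.Agent.R362 Pool.Agent.R683.Ord Pool.Agent.Helper503_AD
  Pool.Agent.Helper503_CP TensorProduct

/-- The dimension of the space of the vectors fixed by `U`. For the Selmer group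
`W = H¹_f(F, M_p)` this is the dimension of the Selmer group over the fixed field of `U`. -/
noncomputable def dimFix {G E W : Type} [Group G] [Field E] [AddCommGroup W] [Module E W]
    (ρ : Representation E G W) (U : Subgroup G) : ℕ :=
  Module.finrank E (Representation.invariants (ρ.comp U.subtype))

variable {G : Type} [Group G] [Finite G] {E : Type} [Field E] [Algebra E ℂ]
  {W : Type} [AddCommGroup W] [Module E W] [FiniteDimensional E W]

/-- the complex representation -/
noncomputable def bc (ρ : Representation E G W) : Representation ℂ G (ℂ ⊗[E] W) where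
  toFun g := (ρ g).baseChange ℂ
  map_one' := by
    rw [map_one]
    exact LinearMap.baseChange_id
  map_mul' a b := by
    rw [map_mul]
    exact LinearMap.baseChange_comp _ _

lemma bc_char (ρ : Representation E G W) (g : G) :
    (bc ρ).character g = algebraMap E ℂ (ρ.character g) :=
  LinearMap.trace_baseChange (ρ g) ℂ

lemma bc_heil (ρ : Representation E G W) : IsHeilbronn (bc ρ).character :=
  Pool.Agent.Y788.rep_heilbronn _

lemma bc_virt (ρ : Representation E G W) : Virt (bc ρ).character := char_mem _ (bc ρ) rfl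

lemma bc_one (ρ : Representation E G W) {R : ℕ} (hR : Module.finrank E W = R) :
    (bc ρ).character 1 = R := by
  rw [bc_char, Representation.char_one, hR, map_natCast]

lemma dimFix_sum (ρ : Representation E G W) (U : Subgroup G) :
    ∑ᶠ u : U, (bc ρ).character u = (dimFix ρ U : ℂ) * Nat.card U := by
  classical
  have : Fintype U := Fintype.ofFinite U
  have : CharZero E := (algebraMap E ℂ).charZero
  have hc : (Nat.card U : E) ≠ 0 := by exact_mod_cast Nat.card_pos.ne'
  have hinv : Invertible (Nat.card U : E) := invertibleOfNonzero hc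
  have h1 := Representation.card_inv_mul_sum_char_eq_finrank (ρ := ρ.comp U.subtype)
  rw [inv_mul_eq_iff_eq_mul₀ hc] at h1
  have h2 := congrArg (algebraMap E ℂ) h1
  rw [map_mul, map_natCast, map_natCast, map_sum] at h2
  rw [finsum_eq_sum_of_fintype, mul_comm]
  refine Eq.trans ?_ h2
  refine Finset.sum_congr rfl fun u _ => ?_
  rw [bc_char]
  rfl

lemma dimFix_sup (ρ : Representation E G W) (N : Subgroup G) [N.Normal]
    (hc : ∀ n ∈ N, ∀ x, (bc ρ).character (n * x) = (bc ρ).character x) (U : Subgroup G) :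
    dimFix ρ U = dimFix ρ (U ⊔ N) :=
  (mult_sup_of_const N U hc (dimFix_sum ρ U) (dimFix_sum ρ (U ⊔ N))).symm

/-- the kernel of the representation -/
lemma triv_of_inv' (ρ : Representation E G W) (N : Subgroup G)
    (hc : ∀ n ∈ N, ∀ x, (bc ρ).character (n * x) = (bc ρ).character x) :
    ∀ x ∈ N, ρ x = 1 := by
  classical
  intro x hx
  have : Fintype N := Fintype.ofFinite N
  have : CharZero E := (algebraMap E ℂ).charZero
  have hc0 : (Nat.card N : ℂ) ≠ 0 := by exact_mod_cast Nat.card_pos.ne'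
  have h1 := dimFix_sum ρ N
  have h2 : ∑ᶠ u : N, (bc ρ).character u = (Module.finrank E W : ℂ) * Nat.card N := by
    rw [finsum_eq_sum_of_fintype]
    have h3 : ∀ u : N, (bc ρ).character u = (Module.finrank E W : ℂ) := by
      intro u
      have h4 := hc u u.2 1
      rw [mul_one] at h4
      rw [h4, bc_one ρ rfl]
    rw [Finset.sum_congr rfl (fun u _ => h3 u), Finset.sum_const, Finset.card_univ, nsmul_eq_mul,
      ← Nat.card_eq_fintype_card, mul_comm]
  rw [h2] at h1
  have h3 : (Module.finrank E W : ℂ) = (dimFix ρ N : ℂ) := mul_right_cancel₀ hc0 h1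
  have h4 : dimFix ρ N = Module.finrank E W := by exact_mod_cast h3.symm
  have h5 : Representation.invariants (ρ.comp N.subtype) = ⊤ := Submodule.eq_top_of_finrank_eq h4
  refine LinearMap.ext fun v => ?_
  have h6 : v ∈ Representation.invariants (ρ.comp N.subtype) := by
    rw [h5]
    exact Submodule.mem_top
  rw [Representation.mem_invariants] at h6
  exact h6 ⟨x, hx⟩

/-- large abelian normal subgroups, if `S` is solvable modulo the kernel -/
theorem jor_ker {θ : G → ℂ} (hθ : IsHeilbronn θ) (hV : Virt θ) {r : ℕ} (hr : θ 1 = r)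
    (S : Subgroup G) (hSn : S.Normal)
    (hSs : Group.IsSolvable (S.map (QuotientGroup.mk' (ker0 θ)))) :
    ∃ B : Subgroup G, B.Normal ∧ B ≤ S ∧ B.relIndex S ≤ 19 ^ r ∧
      B.relIndex S ^ 5 ≤ 2 ^ (34 * (r - 1)) ∧ ⁅B, B⁆ ≤ ker0 θ ∧ ker0 θ ⊓ S ≤ B := by
  classical
  have : Fintype G := Fintype.ofFinite G
  let K := ker0 θ
  let π : G →* G ⧸ K := QuotientGroup.mk' K
  have hπ : Function.Surjective π := QuotientGroup.mk'_surjective K
  have hpush : ∀ (n : ℕ) (ρ : Representation ℂ G (Fin n → ℂ)), Irred ρ → pr θ ρ.character ≠ 0 →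
      ∃ ρ' : Representation ℂ (G ⧸ K) (Fin n → ℂ), Irred ρ' ∧ (∀ g, ρ' (π g) = ρ g) ∧
        pr (push π θ) ρ'.character ≠ 0 := by
    intro n ρ hρ hne
    let ρ' : Representation ℂ (G ⧸ K) (Fin n → ℂ) :=
      QuotientGroup.lift K ρ (fun x hx => hx n ρ hρ hne)
    have hρ' : ∀ x, ρ' (π x) = ρ x := fun x => rfl
    refine ⟨ρ', ?_, hρ', ?_⟩
    · refine ⟨hρ.1, fun W hW => hρ.2 W ?_⟩
      intro x v hv
      rw [← hρ']
      exact hW (π x) v hv
    · rw [pr_push hπ]
      exact hne
  obtain ⟨r', hr', hr1⟩ := push_one_nat_le hπ hθ hr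
  have hH := push_isHeilbronn hπ hθ
  by_cases hr0 : r' = 0
  · -- no constituents
    have hz : push π θ = 0 := by
      funext g
      have h2 := hH.norm_le g
      rw [hr1, hr0, Nat.cast_zero, Complex.zero_re] at h2
      simpa using h2
    have hK : ker0 θ = ⊤ := by
      rw [eq_top_iff]
      intro g _ n ρ hρ hne
      obtain ⟨ρ', -, -, h3⟩ := hpush n ρ hρ hne
      rw [hz, pr_zero_left] at h3
      exact absurd rfl h3
    refine ⟨S, hSn, le_rfl, ?_, ?_, ?_, inf_le_right⟩
    · rw [Subgroup.relIndex_self]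
      exact Nat.one_le_pow _ _ (by norm_num)
    · rw [Subgroup.relIndex_self, one_pow]
      exact Nat.one_le_pow _ _ (by norm_num)
    · rw [hK]
      exact le_top
  · have hfaith : ∀ g : G ⧸ K, (∀ (n : ℕ) (ρ : Representation ℂ (G ⧸ K) (Fin n → ℂ)), Irred ρ →
        pr (push π θ) ρ.character ≠ 0 → ρ g = 1) → g = 1 := by
      intro g₁ hg₁
      obtain ⟨g, rfl⟩ := hπ g₁
      have hg : g ∈ K := by
        intro n ρ hρ hne
        obtain ⟨ρ', h1, h2, h3⟩ := hpush n ρ hρ hne
        rw [← h2]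
        exact hg₁ n ρ' h1 h3
      exact (QuotientGroup.eq_one_iff g).mpr hg
    obtain ⟨A, hAn, hAS, hAc, Ω, m, hne, hm0, hsum, hbd⟩ := jor hH (Virt.push hπ hV) hr1 hr0 hfaith
      (S.map π) (hSn.map π hπ) hSs
    have hAcn : (A.comap π).Normal := hAn.comap π
    have hrel : (A.comap π ⊓ S).relIndex S = A.relIndex (S.map π) := by
      rw [Subgroup.inf_relIndex_right, Subgroup.relIndex_comap]
    refine ⟨A.comap π ⊓ S, inferInstance, inf_le_right, ?_, ?_, ?_, ?_⟩
    · rw [hrel]
      have h1 := hbd.trans (num_b Ω m hm0 hsum)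
      have h2 := (Nat.pow_le_pow_iff_left (by norm_num)).mp h1
      exact h2.trans (Nat.pow_le_pow_right (by norm_num) hr')
    · rw [hrel]
      refine (hbd.trans (num_a Ω m hne hm0 hsum)).trans (Nat.pow_le_pow_right (by norm_num) ?_)
      omega
    · rw [Subgroup.commutator_le]
      intro a ha b hb
      have h2 : π (a * b * a⁻¹ * b⁻¹) = 1 := by
        have h3 : π a * π b = π b * π a := hAc _ ha.1 _ hb.1
        rw [map_mul, map_mul, map_mul, map_inv, map_inv, h3, mul_inv_cancel_right, mul_inv_cancel]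
      exact (QuotientGroup.eq_one_iff _).mp h2
    · refine inf_le_inf_right S ?_
      intro x hx
      change π x ∈ A
      have h2 : π x = 1 := (QuotientGroup.eq_one_iff x).mpr hx
      rw [h2]
      exact A.one_mem

/-- solvability passes to smaller quotients -/
lemma solvable_map_of_le {N K : Subgroup G} [N.Normal] [K.Normal] (hN : N ≤ K) (S : Subgroup G)
    (hS : Group.IsSolvable (S.map (QuotientGroup.mk' N))) :
    Group.IsSolvable (S.map (QuotientGroup.mk' K)) := by
  let f : G ⧸ N →* G ⧸ K := QuotientGroup.map N K (MonoidHom.id G) hN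
  have h1 : (S.map (QuotientGroup.mk' N)).map f = S.map (QuotientGroup.mk' K) := by
    rw [Subgroup.map_map]
    congr 1
  rw [← h1]
  exact Group.isSolvable_of_surjective (f := f.subgroupMap (S.map (QuotientGroup.mk' N)))
    (f.subgroupMap_surjective _)

lemma le_ker0_of_inv {θ : G → ℂ} (N : Subgroup G) [N.Normal]
    (hc : ∀ n ∈ N, ∀ x, θ (n * x) = θ x) : N ≤ ker0 θ := le_ker0 N hc

/-- **Selmer groups.** -/
theorem selmer_main (A : ArtinData G 1) (ρ : Representation E G W) {r R m : ℕ}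
    (hr : meromorphicOrderAt (A.Lin ⊥ 1) 1 = (r : WithTop ℤ)) (hR : Module.finrank E W = R)
    (hrm : r ≤ m) (hRm : R ≤ m) (N : Subgroup G) [N.Normal] (hN : BuiltW m N)
    (S : Subgroup G) (hSn : S.Normal) (hNS : N ≤ S)
    (hS : Group.IsSolvable (S.map (QuotientGroup.mk' N))) :
    ∃ B : Subgroup G, B.Normal ∧ N ≤ B ∧ B ≤ S ∧ B.relIndex S ≤ 19 ^ (r + R) ∧
      B.relIndex S ^ 5 ≤ 2 ^ (34 * ((r - 1) + (R - 1))) ∧
      (∀ n ∈ ⁅B, B⁆ ⊔ N, ∀ x, (theta A.ord : G → ℂ) (n * x) = theta A.ord x) ∧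
      (∀ n ∈ ⁅B, B⁆ ⊔ N, ∀ x, (bc ρ).character (n * x) = (bc ρ).character x) := by
  have h3 := builtW_const hN A.isHeilbronn hrm (A.theta_one hr)
  have h4 := builtW_const hN (bc_heil ρ) hRm (bc_one ρ hR)
  have h5 := le_ker0 N h3
  have h6 := le_ker0 N h4
  obtain ⟨B₁, hn₁, hS₁, ha₁, hb₁, hc₁, hd₁⟩ := jor_ker A.isHeilbronn (theta_virt A.ord)
    (A.theta_one hr) S hSn (solvable_map_of_le h5 S hS)
  obtain ⟨B₂, hn₂, hS₂, ha₂, hb₂, hc₂, hd₂⟩ := jor_ker (bc_heil ρ) (bc_virt ρ) (bc_one ρ hR) S hSn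
    (solvable_map_of_le h6 S hS)
  have hrel : (B₁ ⊓ B₂).relIndex S ≤ B₁.relIndex S * B₂.relIndex S := Subgroup.relIndex_inf_le
  have hn : (B₁ ⊓ B₂).Normal := inferInstance
  have hDn : (⁅B₁ ⊓ B₂, B₁ ⊓ B₂⁆ ⊔ N : Subgroup G).Normal := inferInstance
  refine ⟨B₁ ⊓ B₂, hn, le_inf ((le_inf h5 hNS).trans hd₁) ((le_inf h6 hNS).trans hd₂),
    inf_le_left.trans hS₁, ?_, ?_, ?_, ?_⟩
  · rw [pow_add]
    exact hrel.trans (Nat.mul_le_mul ha₁ ha₂)
  · rw [mul_add, pow_add]
    refine (Nat.pow_le_pow_left hrel 5).trans ?_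
    rw [mul_pow]
    exact Nat.mul_le_mul hb₁ hb₂
  · have h7 : ⁅B₁ ⊓ B₂, B₁ ⊓ B₂⁆ ⊔ N ≤ ker0 (theta A.ord : G → ℂ) :=
      sup_le ((Subgroup.commutator_mono inf_le_left inf_le_left).trans hc₁) h5
    refine inv_of_triv (theta_virt A.ord) _ fun χ hχ hne x hx => ?_
    exact ker0_triv hχ hne x (h7 hx)
  · have h7 : ⁅B₁ ⊓ B₂, B₁ ⊓ B₂⁆ ⊔ N ≤ ker0 (bc ρ).character :=
      sup_le ((Subgroup.commutator_mono inf_le_right inf_le_right).trans hc₂) h6
    refine inv_of_triv (bc_virt ρ) _ fun χ hχ hne x hx => ?_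
    exact ker0_triv hχ hne x (h7 hx)

end Pool.Agent.Helper503_BS
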